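import Pool.Agent.Helper88.PP.Main
import Pool.Agent.Helper68.PP.Trees
import Pool.Agent.Helper78.PP.PhaseOne

set_option autoImplicit false

/-!
MP_120218_co, project PP: the sums-alone theorem for labels, unconditional.
-/

namespace Pool.Agent.Helper88.PP

/-- **sums alone**: many elements in large classes force `|A + D| ≥ c (|A||D|)^(1-ε)` for every `D` -/
theorem sumAbs_all : SumAbs :=
  sumAbs Pool.Agent.Helper78.PP.phaseOne Pool.Agent.Helper68.PP.select
    Pool.Agent.Helper68.PP.treeCount

end Pool.Agent.Helper88.PP
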