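import Pool.Agent.Helper88.PP.MainOld
import Pool.Agent.Helper88.TL.Iter

set_option autoImplicit false

/-!
MP_120218_co, product half: growth of the iterated product sets.
-/

open Finset
open Pool.Agent.Helper84.SP
open Pool.Agent.Helper88.TL
open Pool.Agent.Helper80.LL

namespace Pool.Agent.Helper88.PP

/-- products pay for the complementary defect -/
theorem pay {ps : List ℕ} (hps : ∀ q ∈ ps, q.Prime) {D : Finset ℕ} (hD : D.Nonempty)
    (hpos : ∀ y ∈ D, 0 < y)
    (hsep : ∀ y ∈ D, ∀ y' ∈ D, (∀ q ∈ ps, y.factorization q = y'.factorization q) → y = y')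
    {Z Z' : Finset (ℕ →₀ ℤ)} (hZ : Z.Nonempty) (hZ' : Z'.Nonempty) :
    Real.log D.card - Psi ps D / D.card ≤ 8000000 * (I be Z D + I be Z' D + dd Z Z') := by
  obtain ⟨p, hp1, hp⟩ := Nat.exists_infinite_primes (6 * Z.card + 6 * Z'.card + D.sup id + 1)
  refine payP hp ps hps D hD hpos hsep ?_ Z Z' hZ hZ' (by omega) (by omega)
  intro y hy q
  have h1 : y.factorization q < y := Nat.factorization_lt q (hpos y hy).ne'
  have h2 : y ≤ D.sup id := le_sup (f := id) hy
  omega

/-- doubling the number of factors gains a constant fraction of the complementary defect -/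
theorem pay_double {ps : List ℕ} (hps : ∀ q ∈ ps, q.Prime) {A : Finset ℕ} (hA : A.Nonempty)
    (hpos : ∀ y ∈ A, 0 < y)
    (hsep : ∀ y ∈ A, ∀ y' ∈ A, (∀ q ∈ ps, y.factorization q = y'.factorization q) → y = y')
    {j : ℕ} (hj : 1 ≤ j) :
    (Real.log A.card - Psi ps A / A.card) / 32000000 ≤
      Real.log (it be A (2 * j)).card - Real.log (it be A j).card := by
  have hZ := it_nonempty (α := be) hA j
  have h1 := pay hps hA hpos hsep hZ hZ
  have h2 := I_it_le (α := be) hA hj
  have h3 := dd_it_le (α := be) hA j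
  linarith

/-- the product sets `A^(2^n)` -/
theorem pay_pow {ps : List ℕ} (hps : ∀ q ∈ ps, q.Prime) {A : Finset ℕ} (hA : A.Nonempty)
    (hpos : ∀ y ∈ A, 0 < y)
    (hsep : ∀ y ∈ A, ∀ y' ∈ A, (∀ q ∈ ps, y.factorization q = y'.factorization q) → y = y')
    (n : ℕ) :
    Real.log A.card + n * ((Real.log A.card - Psi ps A / A.card) / 32000000) ≤
      Real.log (it be A (2 ^ n)).card := by
  induction n with
  | zero =>
    have h1 : Set.InjOn be A := fun x hx y hy hxy => be_inj (hpos x hx).ne' (hpos y hy).ne' hxy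
    have h2 : A.card ≤ (it be A (2 ^ 0)).card := it_card_ge (α := be) hA h1 (by norm_num)
    have h3 : Real.log A.card ≤ Real.log (it be A (2 ^ 0)).card := by
      apply Real.log_le_log
      · exact_mod_cast card_pos.2 hA
      · exact_mod_cast h2
    rw [Nat.cast_zero, zero_mul, add_zero]
    exact h3
  | succ n ih =>
    have h1 := pay_double hps hA hpos hsep (j := 2 ^ n) (Nat.one_le_two_pow)
    rw [show 2 * 2 ^ n = 2 ^ (n + 1) by ring] at h1
    rw [Nat.cast_succ, add_mul, one_mul]
    linarith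

end Pool.Agent.Helper88.PP
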