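import Pool.Agent.Helper88.RT.Past
import Pool.Agent.Helper34.TR.Pf
import Pool.Agent.Helper26.TR.Defs

set_option autoImplicit false

/-!
MP_120218_co, project PP (popular primes): definitions and the statements of the modules.
-/

open Finset

namespace Pool.Agent.Helper88.PP

open Pool.Agent.Helper15.BP Pool.Agent.Helper84.TR

/-- the valuation truncated at `T`: the number of `t < T` with `q ^ (t + 1) ∣ x` -/
def vt (T q : ℕ) (x : ℤ) : ℕ := ((range T).filter (fun t => ((q : ℤ) ^ (t + 1) ∣ x))).card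

/-- the truncated valuations at the elements of `P` -/
def vP (T : ℕ) (P : Finset ℕ) (x : ℤ) : ℕ → ℕ := fun q => if q ∈ P then vt T q x else 0

/-- M2 (Phase 1): the valuations at the elements of `P` are almost determined by the sum -/
def PhaseOne : Prop :=
  ∀ η : ℝ, 0 < η → ∃ K : ℝ, 0 < K ∧
    ∀ (Ω Ω' : Type) [Fintype Ω] [Fintype Ω'] (w : Ω → ℝ) (w' : Ω' → ℝ) (X : Ω → ℤ) (Z : Ω' → ℤ)
      (T : ℕ) (P : Finset ℕ), IsPr w → IsPr w' →
      CE (prodW w w') (fun p => (vP T P (X p.1), vP T P (Z p.2))) (fun p => X p.1 + Z p.2) ≤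
        η * (Ent w X + Ent w' Z) + K * P.card

/-- `V` is `b`-spread, in the order `0, 1, 2, ...` of the coordinates -/
def Spr {J : ℕ} (b : Fin J → ℕ) (V : Finset (Fin J → ℕ)) : Prop :=
  ∀ (i : Fin J) (u : Fin J → ℕ),
    b i * (V.filter (fun v => ∀ l, l ≤ i → v l = u l)).card ≤
      (V.filter (fun v => ∀ l, l < i → v l = u l)).card

/-- the vectors with positive entries and sum at most `m` -/
def boxes (J m : ℕ) : Finset (Fin J → ℕ) :=
  (Fintype.piFinset (fun _ : Fin J => Icc 1 m)).filter (fun b => ∑ i, b i ≤ m)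

/-- M6a: large sets contain spread sets.  (The set of the `b` such that `V` contains a
`b`-uniform subtree has exactly `|V|` elements.) -/
def TreeLemma : Prop :=
  ∀ (J m : ℕ) (V : Finset (Fin J → ℕ)), 1 ≤ J → J ≤ m → (boxes J m).card < V.card →
    ∃ b : Fin J → ℕ, (∀ i, 1 ≤ b i) ∧ ∑ i, b i = m + 1 ∧ ∃ V' ⊆ V, V'.Nonempty ∧ Spr b V'

/-- M6b -/
def TreeCount : Prop :=
  ∀ (J m : ℕ), 1 ≤ J → J ≤ m → ((boxes J m).card : ℝ) ≤ (Real.exp 1 * m / J) ^ J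

/-- `B` is `b`-spread inside the classes of `κ` -/
def SprC {J : ℕ} (κ : ℤ → ℤ) (v : ℤ → Fin J → ℕ) (b : Fin J → ℕ) (B : Finset ℤ) : Prop :=
  ∀ (y : ℤ) (i : Fin J) (u : Fin J → ℕ),
    b i * (B.filter (fun x => κ x = y ∧ ∀ l, l ≤ i → v x l = u l)).card ≤
      (B.filter (fun x => κ x = y ∧ ∀ l, l < i → v x l = u l)).card

/-- M6c: selection of a spread subset -/
def Select : Prop :=
  ∀ (J m : ℕ) (κ : ℤ → ℤ) (v : ℤ → Fin J → ℕ) (A : Finset ℤ), 1 ≤ J → J ≤ m →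
    (∀ x ∈ A, ∀ x' ∈ A, κ x = κ x' → v x = v x' → x = x') →
    (∀ x ∈ A, 2 * (boxes J (m + 1)).card ≤ (A.filter (fun x' => κ x' = κ x)).card) →
    ∃ b : Fin J → ℕ, (∀ i, 1 ≤ b i) ∧ ∑ i, b i = m + 1 ∧
      ∃ B ⊆ A, SprC κ v b B ∧ A.card ≤ 2 * (boxes J (m + 1)).card * B.card

/-- the elements of `A` with the same `P`-free part as `a` -/
def cls (P : Finset ℕ) (A : Finset ℤ) (a : ℤ) : Finset ℤ :=
  A.filter (fun a' => Pool.Agent.Helper34.TR.pf P a' = Pool.Agent.Helper34.TR.pf P a)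

/-- the popular prime powers outside `P` have weight at most `R` -/
def WtOut (κ R : ℝ) (P : Finset ℕ) (A : Finset ℤ) : Prop :=
  ∀ (S : Finset ℕ) (l : ℕ → ℕ), (∀ p ∈ S, p.Prime ∧ p ∉ P) →
    (∀ p ∈ S, κ * (A.card : ℝ) ≤ ((A.filter (fun a => ((p : ℤ) ^ l p ∣ a))).card : ℝ)) →
    ∑ p ∈ S, (l p : ℝ) * Real.log p ≤ R

/-- M7: products -/
def ProdSide : Prop :=
  ∀ (k : ℕ) (ε : ℝ), 0 < ε → ∃ C : ℝ, 1 ≤ C ∧
    ∀ (A : Finset ℤ) (P : Finset ℕ) (F : ℕ), (0 : ℤ) ∉ A → 3 ≤ A.card → (∀ p ∈ P, p.Prime) →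
      1 ≤ F →
      (A.card : ℝ) ≤ 2 * ((A.filter (fun a => (cls P A a).card ≤ F)).card : ℝ) →
      WtOut (1 / C) (1 / C * (Real.log A.card * Real.log (Real.log A.card))) P A →
      (A.card : ℝ) ^ ((k : ℝ) - ε) ≤
        C * (F : ℝ) ^ k * ((Pool.Agent.Helper26.TR.prodSet k A).card : ℝ)

/-- the sums -/
def sumS (A D : Finset ℤ) : Finset ℤ := (A ×ˢ D).image (fun p => p.1 + p.2)

/-- M5: sums -/
def SumSide : Prop :=
  ∀ ε : ℝ, 0 < ε → ∃ C : ℝ, 1 ≤ C ∧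
    ∀ (A : Finset ℤ) (P : Finset ℕ), (0 : ℤ) ∉ A → 3 ≤ A.card → (∀ p ∈ P, p.Prime) →
      1 ≤ P.card → C * P.card ≤ Real.log A.card →
      (A.card : ℝ) ^ (1 - 1 / C) ≤ ((A.filter (fun a =>
        (C * Real.log A.card / P.card) ^ P.card < ((cls P A a).card : ℝ))).card : ℝ) →
      ∀ D : Finset ℤ, D.Nonempty →
        ((A.card : ℝ) * D.card) ^ (1 - ε) ≤ C * ((sumS A D).card : ℝ)

end Pool.Agent.Helper88.PP
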