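import Pool.Agent.Helper88.PP.Defs

set_option autoImplicit false

/-!
MP_120218_co, project PP (popular primes): the simplified product side and the main proposition.
(The weight condition is equivalent to a bound for the number of popular primes, up to constants.)
-/

open Finset

namespace Pool.Agent.Helper88.PP

open Pool.Agent.Helper26.TR

/-- the `k`-fold sum set -/
def sumSet (k : ℕ) (A : Finset ℤ) : Finset ℤ :=
  (Fintype.piFinset (fun _ : Fin k => A)).image (fun f : Fin k → ℤ => ∑ i, f i)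

/-- no prime outside `P` divides `|A| / C` elements of `A` -/
def Unpop (C : ℝ) (P : Finset ℕ) (A : Finset ℤ) : Prop :=
  ∀ p : ℕ, p.Prime → p ∉ P →
    C * ((A.filter (fun a => ((p : ℤ) ∣ a))).card : ℝ) < (A.card : ℝ)

/-- M7 (simplified): products, no popular prime outside `P`, small classes -/
def ProdSide0 : Prop :=
  ∀ (k : ℕ) (ε : ℝ), 0 < ε → ∃ C : ℝ, 1 ≤ C ∧
    ∀ (A : Finset ℤ) (P : Finset ℕ) (F : ℕ), (0 : ℤ) ∉ A → 3 ≤ A.card → (∀ p ∈ P, p.Prime) →
      1 ≤ F →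
      (A.card : ℝ) ≤ 2 * ((A.filter (fun a => (cls P A a).card ≤ F)).card : ℝ) →
      Unpop C P A →
      (A.card : ℝ) ^ ((k : ℝ) - ε) ≤ C * (F : ℝ) ^ k * ((prodSet k A).card : ℝ)

/-- M8: Q1 for the sets with few popular primes -/
def PopQ1 : Prop :=
  ∀ (k : ℕ) (ε : ℝ), 0 < ε → ∃ C : ℝ, 1 ≤ C ∧
    ∀ (A : Finset ℤ) (P : Finset ℕ), (0 : ℤ) ∉ A → 3 ≤ A.card → (∀ p ∈ P, p.Prime) →
      C * P.card ≤ Real.log A.card → Unpop C P A →
      (A.card : ℝ) ^ ((k : ℝ) - ε) ≤
        C * (max (sumSet k A).card (prodSet k A).card : ℕ)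

end Pool.Agent.Helper88.PP
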