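import Pool.Agent.Helper88.PP.Defs2

set_option autoImplicit false

/-!
MP_120218_co, project PP: the abstract form of the sum side (labels with residues), for `⟨P⟩` and
for every group of rank `J`.
-/

open Finset

namespace Pool.Agent.Helper88.PP

/-- `κ x` is the label of `x` (its class), `ρ l s` the residue of a label modulo `q_l ^ s` -/
structure LabOK {J : ℕ} (q : Fin J → ℕ) (A : Finset ℤ) {𝒴 R : Type} (κ : ℤ → 𝒴)
    (ρ : Fin J → ℕ → 𝒴 → R) : Prop where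
  inj : ∀ x ∈ A, ∀ x' ∈ A, κ x = κ x' →
    (∀ l, padicValInt (q l) x = padicValInt (q l) x') → x = x'
  mono : ∀ l s a a', ρ l (s + 1) a = ρ l (s + 1) a' → ρ l s a = ρ l s a'
  ker : ∀ x ∈ A, ∀ x' ∈ A, (∀ l, padicValInt (q l) x = padicValInt (q l) x') → ∀ l s,
    (((q l : ℤ) ^ s) ∣ x - x' ↔
      ρ l (s - padicValInt (q l) x) (κ x) = ρ l (s - padicValInt (q l) x) (κ x'))

open Classical in
/-- M5 (abstract): if many elements lie in large classes then `A + D` is large -/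
def SumAbs : Prop :=
  ∀ ε : ℝ, 0 < ε → ∃ C : ℝ, 1 ≤ C ∧
    ∀ (J : ℕ) (q : Fin J → ℕ) (A : Finset ℤ) (𝒴 R : Type) (κ : ℤ → 𝒴) (ρ : Fin J → ℕ → 𝒴 → R),
      1 ≤ J → (∀ l, (q l).Prime) → Function.Injective q → (0 : ℤ) ∉ A → 3 ≤ A.card →
      C * J ≤ Real.log A.card → LabOK q A κ ρ →
      (A.card : ℝ) ^ (1 - 1 / C) ≤ ((A.filter (fun a =>
        (C * Real.log A.card / J) ^ J <
          ((A.filter (fun a' => κ a' = κ a)).card : ℝ))).card : ℝ) →
      ∀ D : Finset ℤ, D.Nonempty →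
        ((A.card : ℝ) * D.card) ^ (1 - ε) ≤ C * ((sumS A D).card : ℝ)

end Pool.Agent.Helper88.PP
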