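import Pool.Agent.Helper88.PP.Defs

set_option autoImplicit false

/-!
MP_120218_co, project PP: guessing errors, the stopped chain rule, domination.
-/

open Finset

namespace Pool.Agent.Helper88.PP

open Pool.Agent.Helper15.BP Pool.Agent.Helper84.TR Pool.Agent.Helper88.RT

variable {Ω Ω' : Type} [Fintype Ω] [Fintype Ω'] {α β γ : Type}

omit [Fintype Ω] in
theorem nonempty_of_isPr [Fintype Ω] {w : Ω → ℝ} (hw : IsPr w) : Nonempty Ω := by
  by_contra h
  rw [not_nonempty_iff] at h
  have h1 := hw.sum_one
  simp at h1

theorem mass_eq_pr (w : Ω → ℝ) (f : Ω → α) (a : α) : mass w (fun o => f o = a) = pr w f a := by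
  unfold mass pr
  apply sum_congr rfl
  intro o _
  congr

/-- the entropy is at least the error of the best guess -/
theorem exists_mode {w : Ω → ℝ} (hw : IsPr w) (f : Ω → α) :
    ∃ a, mass w (fun o => f o ≠ a) ≤ Ent w f := by
  classical
  obtain ⟨o₁⟩ := nonempty_of_isPr hw
  obtain ⟨o₀, -, ho₀⟩ := exists_max_image univ (fun o => pr w f (f o)) ⟨o₁, mem_univ _⟩
  refine ⟨f o₀, ?_⟩
  have h1 : mass w (fun o => f o ≠ f o₀) = 1 - pr w f (f o₀) := by
    rw [← mass_eq_pr w f (f o₀), ← mass_not hw (fun o => f o = f o₀)]
  have h2 : 1 - pr w f (f o₀) = ∑ o, w o * (1 - pr w f (f o₀)) := by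
    rw [← sum_mul, hw.sum_one, one_mul]
  rw [h1, h2]
  unfold Ent
  apply sum_le_sum
  intro o _
  rcases (hw.nonneg o).eq_or_lt with h0 | h0
  · rw [← h0, zero_mul, zero_mul]
  · apply mul_le_mul_of_nonneg_left _ (hw.nonneg o)
    have h3 := pr_pos hw f h0
    have h4 := Real.log_le_sub_one_of_pos h3
    have h5 := ho₀ o (mem_univ _)
    linarith

/-- the conditional entropy is at least the error of the best guess -/
theorem exists_guess {w : Ω → ℝ} (hw : IsPr w) (f : Ω → α) (g : Ω → β) :
    ∃ G : β → α, mass w (fun o => f o ≠ G (g o)) ≤ CE w f g := by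
  classical
  obtain ⟨o₁⟩ := nonempty_of_isPr hw
  have h : ∀ b : β, ∃ a : α, pr w g b ≠ 0 →
      mass (cw w g b) (fun o => f o ≠ a) ≤ Ent (cw w g b) f := by
    intro b
    by_cases hb : pr w g b = 0
    · exact ⟨f o₁, fun h => absurd hb h⟩
    · obtain ⟨a, ha⟩ := exists_mode (cw_isPr hw g b hb) f
      exact ⟨a, fun _ => ha⟩
  choose G hG using h
  refine ⟨G, ?_⟩
  rw [mass_fib hw _ g, Ent_fib hw f g]
  apply sum_le_sum
  intro b _
  by_cases hb : pr w g b = 0
  · rw [hb, zero_mul, zero_mul]
  · apply mul_le_mul_of_nonneg_left _ (pr_nonneg hw g b)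
    refine le_trans (le_of_eq ?_) (hG b hb)
    unfold mass
    apply sum_congr rfl
    intro o _
    by_cases h : g o = b
    · simp only [h]
      congr
    · have h0 : cw w g b o = 0 := by
        unfold cw
        rw [if_neg h]
      rw [h0]
      simp

theorem mass_split [DecidableEq β] {w : Ω → ℝ} (κ : Ω → β) (p : Ω → Prop) :
    mass w p = ∑ k ∈ univ.image κ, mass w (fun o => κ o = k ∧ p o) := by
  classical
  unfold mass
  rw [sum_comm]
  apply sum_congr rfl
  intro o _
  rw [sum_eq_single (κ o)]
  · simp
  · intro k _ hk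
    rw [if_neg]
    intro h
    exact hk h.1.symm
  · intro h
    exact absurd (mem_image_of_mem κ (mem_univ o)) h

theorem mass_zero {w : Ω → ℝ} {p : Ω → Prop} (h : ∀ o, ¬ p o) : mass w p = 0 := by
  unfold mass
  apply sum_eq_zero
  intro o _
  rw [if_neg (h o)]

/-- the chain rule for digits which are revealed until a stopping time -/
theorem stop_chain {w : Ω → ℝ} (hw : IsPr w) (V : Ω → ℕ) (P : Ω → α) (N : ℕ → Ω → γ)
    (hN : ∀ s o o', N (s + 1) o = N (s + 1) o' → N s o = N s o') (j : ℕ) :
    ∃ G : ℕ → α × γ → Option γ, ∑ a ∈ range j, mass w (fun o => V o < a + 1 ∧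
      some (N (j - a) o) ≠ G a (P o, N (j - (a + 1)) o)) ≤
      CE w (fun o => (V o, N (j - V o) o)) P := by
  classical
  have hmono : ∀ s t o o', s ≤ t → N t o = N t o' → N s o = N s o' := by
    intro s t o o' hst
    induction t, hst using Nat.le_induction with
    | base => exact id
    | succ t _ ih => exact fun h => ih (hN t o o' h)
  set Ψ : ℕ → Ω → α × Option ℕ × γ := fun a o =>
    (P o, (if a ≤ V o then some (V o) else none), N (j - max a (V o)) o) with hΨ
  have hstep : ∀ a o o', Ψ a o = Ψ a o' → Ψ (a + 1) o = Ψ (a + 1) o' := by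
    intro a o o' h
    simp only [hΨ, Prod.mk.injEq] at h ⊢
    obtain ⟨h1, h2, h3⟩ := h
    refine ⟨h1, ?_, ?_⟩
    · by_cases hv : a ≤ V o
      · rw [if_pos hv] at h2
        by_cases hv' : a ≤ V o'
        · rw [if_pos hv'] at h2
          rw [Option.some.injEq] at h2
          rw [h2]
        · rw [if_neg hv'] at h2
          exact absurd h2 (by simp)
      · rw [if_neg hv] at h2
        by_cases hv' : a ≤ V o'
        · rw [if_pos hv'] at h2
          exact absurd h2 (by simp)
        · rw [if_neg (by omega), if_neg (by omega)]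
    · by_cases hv : a ≤ V o
      · rw [if_pos hv] at h2
        by_cases hv' : a ≤ V o'
        · rw [if_pos hv'] at h2
          rw [Option.some.injEq] at h2
          rw [← h2] at h3 ⊢
          exact hmono _ _ o o' (by omega) h3
        · rw [if_neg hv'] at h2
          exact absurd h2 (by simp)
      · rw [if_neg hv] at h2
        by_cases hv' : a ≤ V o'
        · rw [if_pos hv'] at h2
          exact absurd h2 (by simp)
        · have e1 : max a (V o) = a := by omega
          have e2 : max a (V o') = a := by omega
          have e3 : max (a + 1) (V o) = a + 1 := by omega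
          have e4 : max (a + 1) (V o') = a + 1 := by omega
          rw [e1, e2] at h3
          rw [e3, e4]
          exact hmono _ _ o o' (by omega) h3
  -- the guesses
  have hG : ∀ a : ℕ, ∃ G : α × γ → Option γ, mass w (fun o => V o < a + 1 ∧
      some (N (j - a) o) ≠ G (P o, N (j - (a + 1)) o)) ≤ Ent w (Ψ a) - Ent w (Ψ (a + 1)) := by
    intro a
    set f : Ω → Option γ := fun o => if V o < a + 1 then some (N (j - a) o) else none with hf
    obtain ⟨G', hG'⟩ := exists_guess hw f (Ψ (a + 1))
    refine ⟨fun x => G' (x.1, none, x.2), ?_⟩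
    have h1 : mass w (fun o => V o < a + 1 ∧
        some (N (j - a) o) ≠ G' (P o, none, N (j - (a + 1)) o)) ≤
        mass w (fun o => f o ≠ G' (Ψ (a + 1) o)) := by
      apply mass_mono hw
      rintro o ⟨h1, h2⟩
      have e1 : f o = some (N (j - a) o) := by
        simp only [hf]
        rw [if_pos h1]
      have e2 : Ψ (a + 1) o = (P o, none, N (j - (a + 1)) o) := by
        simp only [hΨ]
        rw [if_neg (by omega), show max (a + 1) (V o) = a + 1 by omega]
      rw [e1, e2]
      exact h2
    have h2 : CE w f (Ψ (a + 1)) ≤ CE w (Ψ a) (Ψ (a + 1)) := by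
      apply CE_mono hw
      intro o o' _ h
      simp only [hΨ, Prod.mk.injEq] at h
      obtain ⟨_, h2, h3⟩ := h
      simp only [hf]
      by_cases hv : a ≤ V o
      · rw [if_pos hv] at h2
        by_cases hv' : a ≤ V o'
        · rw [if_pos hv'] at h2
          rw [Option.some.injEq] at h2
          rw [← h2] at h3 ⊢
          by_cases hva : V o < a + 1
          · rw [if_pos hva, if_pos hva]
            have : max a (V o) = a := by omega
            rw [this] at h3
            rw [h3]
          · rw [if_neg hva, if_neg hva]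
        · rw [if_neg hv'] at h2
          exact absurd h2 (by simp)
      · rw [if_neg hv] at h2
        by_cases hv' : a ≤ V o'
        · rw [if_pos hv'] at h2
          exact absurd h2 (by simp)
        · rw [if_pos (by omega), if_pos (by omega)]
          have e1 : max a (V o) = a := by omega
          have e2 : max a (V o') = a := by omega
          rw [e1, e2] at h3
          rw [h3]
    have h3 : CE w (Ψ a) (Ψ (a + 1)) = Ent w (Ψ a) - Ent w (Ψ (a + 1)) := by
      unfold CE
      congr 1
      apply Ent_congr
      intro o o'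
      simp only [Prod.mk.injEq]
      constructor
      · exact fun h => h.1
      · exact fun h => ⟨h, hstep a o o' h⟩
    calc _ ≤ _ := h1
      _ ≤ _ := hG'
      _ ≤ _ := h2
      _ = _ := h3
  choose G hG using hG
  refine ⟨G, ?_⟩
  refine (sum_le_sum fun a _ => hG a).trans ?_
  rw [Finset.sum_range_sub']
  have h1 : Ent w (Ψ 0) = Ent w (fun o => ((V o, N (j - V o) o), P o)) := by
    apply Ent_congr
    intro o o'
    simp only [hΨ, Prod.mk.injEq, Nat.zero_le, if_true, Nat.zero_max, Option.some.injEq]
    tauto
  have h2 : Ent w P ≤ Ent w (Ψ j) := by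
    apply Ent_mono hw
    intro o o' h
    exact congrArg Prod.fst h
  unfold CE
  rw [h1]
  linarith

/-- **Domination**: an event which depends on `κ` and `V`, when the law of `V` given `κ` is spread -/
theorem dominate {w : Ω → ℝ} (hw : IsPr w) (κ : Ω → β) (V : Ω → ℕ) (b : ℕ) (hb : 1 ≤ b) (e : ℝ)
    (he : 0 < e)
    (hsp : ∀ k a, (b : ℝ) * mass w (fun o => κ o = k ∧ V o = a) ≤ mass w (fun o => κ o = k))
    (Q : β → ℕ → Prop) (n : ℕ) (hn : ∀ k a, n ≤ a → ¬ Q k a) :
    mass w (fun o => Q (κ o) (V o)) ≤ e + 1 / b +
      1 / (e * b) * ∑ a ∈ range n, mass w (fun o => V o < a ∧ Q (κ o) a) := by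
  classical
  have hb0 : (0 : ℝ) < b := by exact_mod_cast hb
  set late : β → ℕ → Prop := fun k a =>
    mass w (fun o => κ o = k ∧ V o < a) < e * mass w (fun o => κ o = k) with hlate
  have h1 : mass w (fun o => Q (κ o) (V o)) ≤ mass w (fun o => late (κ o) (V o)) +
      mass w (fun o => ¬ late (κ o) (V o) ∧ Q (κ o) (V o)) := by
    refine le_trans (mass_mono hw ?_) (mass_or_le hw _ _)
    intro o ho
    by_cases h : late (κ o) (V o)
    · exact Or.inl h
    · exact Or.inr ⟨h, ho⟩
  -- the late part
  have h2 : mass w (fun o => late (κ o) (V o)) ≤ e + 1 / b := by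
    rw [mass_split κ]
    have h3 : ∀ k ∈ univ.image κ, mass w (fun o => κ o = k ∧ late (κ o) (V o)) ≤
        (e + 1 / b) * mass w (fun o => κ o = k) := by
      intro k _
      have hp0 : 0 ≤ mass w (fun o => κ o = k) := mass_nonneg hw _
      by_cases hex : ∃ o, κ o = k ∧ late (κ o) (V o)
      · obtain ⟨o₁, ho₁⟩ := hex
        obtain ⟨o₀, ho₀, hmax⟩ := exists_max_image
          (univ.filter (fun o => κ o = k ∧ late (κ o) (V o))) V ⟨o₁, by simpa using ho₁⟩
        rw [mem_filter] at ho₀
        obtain ⟨-, hk, hl⟩ := ho₀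
        rw [hk] at hl
        have h4 : mass w (fun o => κ o = k ∧ late (κ o) (V o)) ≤
            mass w (fun o => (κ o = k ∧ V o < V o₀) ∨ (κ o = k ∧ V o = V o₀)) := by
          apply mass_mono hw
          rintro o ⟨h5, h6⟩
          have h7 := hmax o (by rw [mem_filter]; exact ⟨mem_univ _, h5, h6⟩)
          rcases h7.lt_or_eq with h8 | h8
          · exact Or.inl ⟨h5, h8⟩
          · exact Or.inr ⟨h5, h8⟩
        have h5 := mass_or_le hw (fun o => κ o = k ∧ V o < V o₀) (fun o => κ o = k ∧ V o = V o₀)
        have h6 := hsp k (V o₀)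
        have h7 : mass w (fun o => κ o = k ∧ V o = V o₀) ≤ 1 / b * mass w (fun o => κ o = k) := by
          rw [one_div, ← div_eq_inv_mul, le_div_iff₀ hb0]
          linarith
        simp only [hlate] at hl
        calc _ ≤ _ := h4
          _ ≤ _ := h5
          _ ≤ e * mass w (fun o => κ o = k) + 1 / b * mass w (fun o => κ o = k) :=
            add_le_add hl.le h7
          _ = _ := by ring
      · push Not at hex
        rw [mass_zero]
        · positivity
        · rintro o ⟨h5, h6⟩
          exact hex o h5 h6
    refine (sum_le_sum h3).trans ?_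
    rw [← mul_sum]
    have h4 : ∑ k ∈ univ.image κ, mass w (fun o => κ o = k) = 1 := by
      rw [← sum_pr_one hw κ]
      exact sum_congr rfl fun k _ => mass_eq_pr w κ k
    rw [h4, mul_one]
  -- the early part
  have h3 : mass w (fun o => ¬ late (κ o) (V o) ∧ Q (κ o) (V o)) ≤
      1 / (e * b) * ∑ a ∈ range n, mass w (fun o => V o < a ∧ Q (κ o) a) := by
    have h4 : ∀ k ∈ univ.image κ, mass w (fun o => κ o = k ∧ ¬ late (κ o) (V o) ∧ Q (κ o) (V o)) ≤
        1 / (e * b) * ∑ a ∈ range n, mass w (fun o => κ o = k ∧ V o < a ∧ Q (κ o) a) := by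
      intro k _
      have h5 : mass w (fun o => κ o = k ∧ ¬ late (κ o) (V o) ∧ Q (κ o) (V o)) ≤
          ∑ a ∈ range n, mass w (fun o => V o = a ∧ κ o = k ∧ ¬ late (κ o) (V o) ∧
            Q (κ o) (V o)) := by
        rw [mass_split V]
        have hsub : ∀ a ∈ univ.image V, a ∉ range n →
            mass w (fun o => V o = a ∧ κ o = k ∧ ¬ late (κ o) (V o) ∧ Q (κ o) (V o)) = 0 := by
          intro a _ ha
          rw [mem_range, not_lt] at ha
          apply mass_zero
          rintro o ⟨e1, -, -, e4⟩
          exact hn _ _ (by rw [e1]; exact ha) e4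
        calc _ = ∑ a ∈ (univ.image V).filter (fun a => a ∈ range n),
              mass w (fun o => V o = a ∧ κ o = k ∧ ¬ late (κ o) (V o) ∧ Q (κ o) (V o)) := by
              symm
              apply sum_filter_of_ne
              intro a ha hne
              by_contra hcon
              exact hne (hsub a ha hcon)
          _ ≤ _ := by
              apply sum_le_sum_of_subset_of_nonneg
              · intro a ha
                exact (mem_filter.1 ha).2
              · intro a _ _
                exact mass_nonneg hw _
      refine h5.trans ?_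
      rw [mul_sum]
      apply sum_le_sum
      intro a _
      by_cases hQ : Q k a
      · by_cases hl : late k a
        · rw [mass_zero]
          · have := mass_nonneg hw (fun o => κ o = k ∧ V o < a ∧ Q (κ o) a)
            positivity
          · rintro o ⟨e1, e2, e3, -⟩
            rw [e1, e2] at e3
            exact e3 hl
        · have h6 : mass w (fun o => V o = a ∧ κ o = k ∧ ¬ late (κ o) (V o) ∧ Q (κ o) (V o)) ≤
              mass w (fun o => κ o = k ∧ V o = a) :=
            mass_mono hw fun o ho => ⟨ho.2.1, ho.1⟩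
          have h7 := hsp k a
          have h8 : mass w (fun o => κ o = k ∧ V o < a) ≤
              mass w (fun o => κ o = k ∧ V o < a ∧ Q (κ o) a) := by
            apply mass_mono hw
            rintro o ⟨e1, e2⟩
            exact ⟨e1, e2, by rw [e1]; exact hQ⟩
          simp only [hlate, not_lt] at hl
          rw [one_div, ← div_eq_inv_mul, le_div_iff₀ (by positivity)]
          calc mass w (fun o => V o = a ∧ κ o = k ∧ ¬ late (κ o) (V o) ∧ Q (κ o) (V o)) * (e * b) ≤
                mass w (fun o => κ o = k ∧ V o = a) * (e * b) :=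
                mul_le_mul_of_nonneg_right h6 (by positivity)
            _ = e * (b * mass w (fun o => κ o = k ∧ V o = a)) := by ring
            _ ≤ e * mass w (fun o => κ o = k) := mul_le_mul_of_nonneg_left h7 he.le
            _ ≤ _ := hl
            _ ≤ _ := h8
      · rw [mass_zero]
        · have := mass_nonneg hw (fun o => κ o = k ∧ V o < a ∧ Q (κ o) a)
          positivity
        · rintro o ⟨e1, e2, -, e4⟩
          rw [e1, e2] at e4
          exact hQ e4
    rw [mass_split κ]
    refine (sum_le_sum h4).trans (le_of_eq ?_)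
    rw [← mul_sum, sum_comm]
    congr 1
    apply sum_congr rfl
    intro a _
    exact (mass_split κ _).symm
  linarith

end Pool.Agent.Helper88.PP
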