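import Pool.Agent.Helper88.PP.Sum

set_option autoImplicit false

/-!
MP_120218_co, project PP: if many elements lie in large classes then `A + D` is large.
-/

open Finset

namespace Pool.Agent.Helper88.PP

open Pool.Agent.Helper15.BP Pool.Agent.Helper84.TR Pool.Agent.Helper88.RT

open Classical in
theorem sumAbs (hP1 : PhaseOne) (hS : Select) (hT : TreeCount) : SumAbs := by
  intro ε₀ hε₀
  set ε : ℝ := min ε₀ 1 with hε
  have hε0 : 0 < ε := lt_min hε₀ one_pos
  have hε1 : ε ≤ 1 := min_le_right _ _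
  obtain ⟨ε₁, K, hε₁, hε₁', hK, H⟩ := spread_sum hP1 (ε / 16) (by positivity)
  set C₁ : ℝ := 8 / ε₁ ^ 2 + 4 / ε₁ + 1 with hC₁
  have hC₁1 : 1 ≤ C₁ := by
    have : 0 < 8 / ε₁ ^ 2 + 4 / ε₁ := by positivity
    linarith
  set C₂ : ℝ := Real.exp 1 * (C₁ + 1) with hC₂
  have hexp1 : 1 ≤ Real.exp 1 := Real.one_le_exp (by norm_num)
  have hC₂1 : 1 ≤ C₂ := by nlinarith
  obtain ⟨C₀, hC₀, hsmall⟩ := pow_small (2 * C₂) (ε / 4) (by linarith) (by positivity)
  set C : ℝ := max (max C₀ (2 * C₂)) (max (8 / ε) (8 * K / ε)) with hC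
  have hCC₀ : C₀ ≤ C := (le_max_left _ _).trans (le_max_left _ _)
  have hCC₂ : 2 * C₂ ≤ C := (le_max_right _ _).trans (le_max_left _ _)
  have hCε : 8 / ε ≤ C := (le_max_left _ _).trans (le_max_right _ _)
  have hCK : 8 * K / ε ≤ C := (le_max_right _ _).trans (le_max_right _ _)
  have hC1 : 1 ≤ C := hC₀.trans hCC₀
  have hCpos : 0 < C := by linarith
  refine ⟨C, hC1, ?_⟩
  intro J q A 𝒴 R κ ρ hJ hq hinj hA0 hA3 hCJ hlab hbig D hD
  set L : ℝ := Real.log A.card with hL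
  have hJ1 : (1 : ℝ) ≤ J := by exact_mod_cast hJ
  have hJL : (J : ℝ) ≤ L := (le_mul_of_one_le_left (by linarith) hC1).trans hCJ
  have hL1 : 1 ≤ L := hJ1.trans hJL
  have hN3 : (3 : ℝ) ≤ A.card := by exact_mod_cast hA3
  have hN0 : (0 : ℝ) < A.card := by linarith
  -- the number m
  set m : ℕ := ⌈8 * L / ε₁ ^ 2 + 4 * J / ε₁⌉₊ with hm
  have hmlow : 8 * L / ε₁ ^ 2 + 4 * J / ε₁ ≤ m := Nat.le_ceil _
  have hpos1 : 0 ≤ 8 * L / ε₁ ^ 2 := by positivity
  have hmup : (m : ℝ) ≤ C₁ * L := by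
    have h1 : (m : ℝ) < 8 * L / ε₁ ^ 2 + 4 * J / ε₁ + 1 := Nat.ceil_lt_add_one (by positivity)
    have h2 : 4 * (J : ℝ) / ε₁ ≤ 4 * L / ε₁ := by gcongr
    have h3 : C₁ * L = 8 * L / ε₁ ^ 2 + 4 * L / ε₁ + L := by
      rw [hC₁]
      ring
    rw [h3]
    linarith
  have hmJ : J ≤ m := by
    have h1 : (J : ℝ) ≤ 4 * J / ε₁ := by
      rw [le_div_iff₀ hε₁]
      nlinarith
    have h2 : (J : ℝ) ≤ m := by linarith
    exact_mod_cast h2
  -- the number of boxes
  set bx : ℕ := (boxes J (m + 1)).card with hbx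
  have hbx1 : (bx : ℝ) ≤ (C₂ * L / J) ^ J := by
    refine (hT J (m + 1) hJ (by omega)).trans ?_
    apply pow_le_pow_left₀ (by positivity)
    apply div_le_div_of_nonneg_right _ (by linarith)
    have h1 : ((m + 1 : ℕ) : ℝ) ≤ (C₁ + 1) * L := by
      push_cast
      linarith
    calc Real.exp 1 * ((m + 1 : ℕ) : ℝ) ≤ Real.exp 1 * ((C₁ + 1) * L) :=
          mul_le_mul_of_nonneg_left h1 (by positivity)
      _ = C₂ * L := by rw [hC₂]; ring
  have hbx2 : 2 * (bx : ℝ) ≤ (2 * C₂ * L / J) ^ J := by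
    have h1 : (2 * C₂ * L / J) ^ J = 2 ^ J * (C₂ * L / J) ^ J := by
      rw [← mul_pow]
      congr 1
      ring
    have h2 : (2 : ℝ) ≤ 2 ^ J := by
      calc (2 : ℝ) = 2 ^ 1 := by norm_num
        _ ≤ 2 ^ J := pow_le_pow_right₀ (by norm_num) hJ
    have h3 : 0 ≤ (C₂ * L / J) ^ J := by positivity
    rw [h1]
    calc 2 * (bx : ℝ) ≤ 2 * (C₂ * L / J) ^ J := by linarith
      _ ≤ 2 ^ J * (C₂ * L / J) ^ J := mul_le_mul_of_nonneg_right h2 h3
  have hbx3 : 2 * (bx : ℝ) ≤ Real.exp (ε / 4 * L) :=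
    hbx2.trans (hsmall C L J hCC₀ (by linarith) hJ hCJ)
  have hbx4 : 2 * (bx : ℝ) ≤ (C * L / J) ^ J := by
    refine hbx2.trans ?_
    apply pow_le_pow_left₀ (by positivity)
    apply div_le_div_of_nonneg_right _ (by linarith)
    exact mul_le_mul_of_nonneg_right hCC₂ (by linarith)
  -- the integer label
  set g : 𝒴 → ℤ := fun y => if h : ∃ a ∈ A, κ a = y then h.choose else 0 with hg
  have hgκ : ∀ x ∈ A, κ (g (κ x)) = κ x := by
    intro x hx
    have hex : ∃ a ∈ A, κ a = κ x := ⟨x, hx, rfl⟩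
    simp only [hg]
    rw [dif_pos hex]
    exact hex.choose_spec.2
  have hκ' : ∀ x ∈ A, ∀ x' ∈ A, g (κ x) = g (κ x') ↔ κ x = κ x' := by
    intro x hx x' hx'
    constructor
    · intro h
      rw [← hgκ x hx, ← hgκ x' hx', h]
    · intro h
      rw [h]
  -- the large classes
  set A₁ : Finset ℤ := A.filter (fun a => (C * L / J) ^ J <
    ((A.filter (fun a' => κ a' = κ a)).card : ℝ)) with hA₁
  have hA₁A : A₁ ⊆ A := filter_subset _ _
  have hclass : ∀ x ∈ A₁, 2 * bx ≤ (A₁.filter (fun x' => g (κ x') = g (κ x))).card := by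
    intro x hx
    have hxA := hA₁A hx
    have h1 : A.filter (fun a' => κ a' = κ x) ⊆
        A₁.filter (fun x' => g (κ x') = g (κ x)) := by
      intro a ha
      rw [mem_filter] at ha ⊢
      refine ⟨?_, by rw [ha.2]⟩
      rw [hA₁, mem_filter] at hx ⊢
      refine ⟨ha.1, ?_⟩
      rw [ha.2]
      exact hx.2
    have h2 := card_le_card h1
    have h3 : (2 * bx : ℝ) ≤ ((A.filter (fun a' => κ a' = κ x)).card : ℝ) :=
      hbx4.trans (mem_filter.1 hx).2.le
    have h4 : 2 * bx ≤ (A.filter (fun a' => κ a' = κ x)).card := by exact_mod_cast h3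
    omega
  obtain ⟨b, hb1, hbsum, B, hBA₁, hspr, hcard⟩ := hS J m (fun x => g (κ x))
    (fun x l => padicValInt (q l) x) A₁ hJ hmJ (by
      intro x hx x' hx' h1 h2
      exact hlab.inj x (hA₁A hx) x' (hA₁A hx') ((hκ' x (hA₁A hx) x' (hA₁A hx')).1 h1)
        fun l => congrFun h2 l) hclass
  have hBA : B ⊆ A := hBA₁.trans hA₁A
  have hA₁pos : (0 : ℝ) < A₁.card := lt_of_lt_of_le (Real.rpow_pos_of_pos hN0 _) hbig
  have hBne : B.Nonempty := by
    rw [nonempty_iff_ne_empty]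
    rintro rfl
    rw [card_empty, mul_zero] at hcard
    have h1 : A₁.card = 0 := by omega
    rw [h1] at hA₁pos
    simp at hA₁pos
  have hBpos : (0 : ℝ) < B.card := by exact_mod_cast hBne.card_pos
  have hlabB : LabOK q B κ ρ := ⟨fun x hx x' hx' => hlab.inj x (hBA hx) x' (hBA hx'), hlab.mono,
    fun x hx x' hx' => hlab.ker x (hBA hx) x' (hBA hx')⟩
  have hlogB : Real.log B.card ≤ L := by
    apply Real.log_le_log hBpos
    exact_mod_cast card_le_card hBA
  have hH := H J q B 𝒴 R κ ρ b hq hinj (fun h => hA0 (hBA h)) hBne hlabB hb1 (by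
    intro i y u
    by_cases hex : ∃ x₀ ∈ B, κ x₀ = y
    · obtain ⟨x₀, hx₀, rfl⟩ := hex
      have h1 := hspr (g (κ x₀)) i u
      have e1 : B.filter (fun x => κ x = κ x₀ ∧ ∀ l, l ≤ i → padicValInt (q l) x = u l) =
          B.filter (fun x => g (κ x) = g (κ x₀) ∧ ∀ l, l ≤ i → padicValInt (q l) x = u l) := by
        apply filter_congr
        intro x hx
        rw [hκ' x (hBA hx) x₀ (hBA hx₀)]
      have e2 : B.filter (fun x => κ x = κ x₀ ∧ ∀ l, l < i → padicValInt (q l) x = u l) =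
          B.filter (fun x => g (κ x) = g (κ x₀) ∧ ∀ l, l < i → padicValInt (q l) x = u l) := by
        apply filter_congr
        intro x hx
        rw [hκ' x (hBA hx) x₀ (hBA hx₀)]
      rw [e1, e2]
      convert h1 using 2
    · push Not at hex
      have e1 : B.filter (fun x => κ x = y ∧ ∀ l, l ≤ i → padicValInt (q l) x = u l) = ∅ := by
        rw [filter_eq_empty_iff]
        rintro x hx ⟨h, -⟩
        exact hex x hx h
      rw [e1, card_empty, mul_zero]
      exact Nat.zero_le _) (by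
    have h1 : ∑ i, (b i : ℝ) = m + 1 := by
      rw [← Nat.cast_sum, hbsum]
      push_cast
      ring
    rw [h1]
    have h2 : 8 * Real.log B.card / ε₁ ^ 2 ≤ 8 * L / ε₁ ^ 2 := by gcongr
    linarith) D hD
  -- sizes
  have hDpos : (0 : ℝ) < D.card := by exact_mod_cast hD.card_pos
  have hD1 : (1 : ℝ) ≤ D.card := by exact_mod_cast hD.card_pos
  set ℓ : ℝ := Real.log D.card with hℓ
  have hℓ0 : 0 ≤ ℓ := Real.log_nonneg hD1
  have hsub : sumS B D ⊆ sumS A D := by
    unfold sumS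
    apply image_subset_image
    exact product_subset_product_left hBA
  have hsumne : (sumS B D).Nonempty := by
    unfold sumS
    exact (hBne.product hD).image _
  have hSpos : (0 : ℝ) < (sumS A D).card := by
    exact_mod_cast (hsumne.mono hsub).card_pos
  have hlog1 : Real.log ((sumS B D).card) ≤ Real.log ((sumS A D).card) := by
    apply Real.log_le_log
    · exact_mod_cast hsumne.card_pos
    · exact_mod_cast card_le_card hsub
  have hlogB2 : (1 - 1 / C) * L - ε / 4 * L ≤ Real.log B.card := by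
    have h1 : (A.card : ℝ) ^ (1 - 1 / C) ≤ Real.exp (ε / 4 * L) * B.card := by
      calc (A.card : ℝ) ^ (1 - 1 / C) ≤ A₁.card := hbig
        _ ≤ 2 * bx * B.card := by exact_mod_cast hcard
        _ ≤ Real.exp (ε / 4 * L) * B.card := mul_le_mul_of_nonneg_right hbx3 hBpos.le
    have h2 := Real.log_le_log (Real.rpow_pos_of_pos hN0 _) h1
    rw [Real.log_rpow hN0, Real.log_mul (Real.exp_pos _).ne' hBpos.ne', Real.log_exp] at h2
    linarith
  have hKJ : K * J ≤ ε / 8 * L := by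
    have h1 : 8 * K ≤ C * ε := by
      rwa [div_le_iff₀ hε0] at hCK
    have h2 : (J : ℝ) * (8 * K) ≤ J * (C * ε) := mul_le_mul_of_nonneg_left h1 (by linarith)
    have h3 : C * J * ε ≤ L * ε := mul_le_mul_of_nonneg_right hCJ hε0.le
    linarith
  have hCinv : 1 / C ≤ ε / 8 := by
    rw [div_le_iff₀ hCpos]
    have h1 : 8 ≤ C * ε := by
      rwa [div_le_iff₀ hε0] at hCε
    linarith
  have hkey : (1 - ε) * (L + ℓ) ≤ Real.log ((sumS A D).card) := by
    refine le_trans ?_ (hH.trans hlog1)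
    have h1 : 0 < 1 - 3 * (ε / 16) := by linarith
    have h2 : (1 - 3 * (ε / 16)) * (ℓ + ((1 - 1 / C) * L - ε / 4 * L)) ≤
        (1 - 3 * (ε / 16)) * (ℓ + Real.log B.card) := by
      apply mul_le_mul_of_nonneg_left _ h1.le
      linarith
    have h3 : 1 / C * L ≤ ε / 8 * L := mul_le_mul_of_nonneg_right hCinv (by linarith)
    have h4 : ℓ + (L - ε / 8 * L - ε / 4 * L) ≤ ℓ + ((1 - 1 / C) * L - ε / 4 * L) := by
      linarith
    have h5 := mul_le_mul_of_nonneg_left h4 h1.le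
    have h6 : (1 - ε) * (L + ℓ) ≤ (1 - 3 * (ε / 16)) * (ℓ + (L - ε / 8 * L - ε / 4 * L)) -
        ε / 8 * L := by
      have e1 : 0 ≤ ε * ℓ := by positivity
      have e2 : 0 ≤ ε * L := by positivity
      have e3 : 0 ≤ ε * ε * L := by positivity
      have e4 : (1 - 3 * (ε / 16)) * (ℓ + (L - ε / 8 * L - ε / 4 * L)) - ε / 8 * L -
          (1 - ε) * (L + ℓ) = 13 / 16 * (ε * ℓ) + 5 / 16 * (ε * L) + 9 / 128 * (ε * ε * L) := by
        ring
      linarith
    linarith
  have hNDpos : (0 : ℝ) < (A.card : ℝ) * D.card := by positivity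
  have hND1 : (1 : ℝ) ≤ (A.card : ℝ) * D.card :=
    one_le_mul_of_one_le_of_one_le (by linarith) hD1
  calc ((A.card : ℝ) * D.card) ^ (1 - ε₀) ≤ ((A.card : ℝ) * D.card) ^ (1 - ε) := by
        apply Real.rpow_le_rpow_of_exponent_le hND1
        have : ε ≤ ε₀ := min_le_left _ _
        linarith
    _ = Real.exp ((1 - ε) * (L + ℓ)) := by
        rw [Real.rpow_def_of_pos hNDpos, Real.log_mul hN0.ne' hDpos.ne', mul_comm]
    _ ≤ Real.exp (Real.log ((sumS A D).card)) := Real.exp_le_exp.2 hkey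
    _ = (sumS A D).card := Real.exp_log hSpos
    _ ≤ C * ((sumS A D).card : ℝ) := le_mul_of_one_le_left hSpos.le hC1

end Pool.Agent.Helper88.PP
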