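import Pool.Agent.Helper88.TL.Group

set_option autoImplicit false

/-!
MP_120218_co, product half: the valuation modulo a large prime, and the doubling of spread sets.
-/

open Finset
open Pool.Agent.Helper84.SP
open Pool.Agent.Helper88.TL

namespace Pool.Agent.Helper88.PP

/-- the `q`-coordinate modulo `p` -/
noncomputable def piP (q p : ℕ) : (ℕ →₀ ℤ) →+ ZMod p := (Int.castAddHom (ZMod p)).comp (piB q)

theorem piP_be (q p y : ℕ) : piP q p (be y) = ((y.factorization q : ℕ) : ZMod p) := by
  unfold piP
  rw [AddMonoidHom.comp_apply, piB_be]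
  simp

variable {G : Type*} [AddCommGroup G] [DecidableEq G]

/-- A pair of sets, one of them small compared with the prime `p` and the other without a class
of mass `7/8`, has doubling. -/
theorem tf_gain {p : ℕ} (hp : p.Prime) (π : G →+ ZMod p) {X X' : Finset G} (hX : X.Nonempty)
    (hX' : X'.Nonempty) (hpX : 6 * X.card < p)
    (hm' : ∀ c, ((cl π X' c).card : ℝ) < 7 / 8 * X'.card) : PG π X X' (1 / 73728) := by
  have : NeZero p := ⟨hp.ne_zero⟩
  have hXc : (0 : ℝ) < X.card := by exact_mod_cast card_pos.2 hX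
  have hXc' : (0 : ℝ) < X'.card := by exact_mod_cast card_pos.2 hX'
  have hprod : (0 : ℝ) ≤ X.card * X'.card := (mul_pos hXc hXc').le
  set τ₁ : ℝ := ∑ z, law π X' z * tv (tr (law π X) z) (conv (law π X) (law π X')) with hτ₁
  set τ₂ : ℝ := ∑ z, law π X z * tv (tr (law π X') z) (conv (law π X') (law π X)) with hτ₂
  have hJ1 := J_tv π hX hX' hτ₁
  have hJ2 := J_tv π hX' hX hτ₂
  by_cases h1 : 1 / 96 ≤ τ₁
  · have hsup := pair_super π X' X
    have hsq : (1 : ℝ) / 73728 ≤ τ₁ ^ 2 / 8 := by nlinarith
    have := mul_le_mul_of_nonneg_left hsq hprod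
    unfold PG
    linarith
  by_cases h2 : 1 / 96 ≤ τ₂
  · have hsup := pair_super π X X'
    have hsq : (1 : ℝ) / 73728 ≤ τ₂ ^ 2 / 8 := by nlinarith
    have := mul_le_mul_of_nonneg_left hsq hprod
    have hc : (X'.card : ℝ) * X.card = X.card * X'.card := mul_comm _ _
    rw [hc] at hJ2
    unfold PG
    linarith
  exfalso
  push Not at h1 h2
  have hS : 1 / 2 ≤ ∑ w ∈ X.image π, law π X w := by
    have h3 : ∑ w ∈ X.image π, law π X w = ∑ w, law π X w := by
      apply sum_subset (subset_univ _)
      intro w _ hw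
      unfold law
      have h4 : cl π X w = ∅ := by
        rw [eq_empty_iff_forall_notMem]
        intro x hx
        rw [mem_cl] at hx
        exact hw (mem_image.2 ⟨x, hx.1, hx.2⟩)
      rw [h4]
      simp
    rw [h3, law_sum π hX]
    norm_num
  have hSq : 6 * (X.image π).card < p := by
    have := card_image_le (s := X) (f := π)
    omega
  rw [conv_comm (law π X') (law π X)] at hτ₂
  obtain ⟨z, hz⟩ := group_gain (law π X) (law π X') (law_nonneg _ _)
    (law_sum _ hX) (law_nonneg _ _) (law_sum _ hX') (by rw [← hτ₁]; exact h1)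
    (by rw [← hτ₂]; exact h2) (q := p)
    (fun t ht j hj1 hjq h0 => by
      have : Fact p.Prime := ⟨hp⟩
      rw [nsmul_eq_mul, mul_eq_zero] at h0
      rcases h0 with h0 | h0
      · rw [ZMod.natCast_eq_zero_iff] at h0
        exact absurd (Nat.le_of_dvd (by omega) h0) (by omega)
      · exact ht h0) (X.image π) hS hSq
  have h7 := hm' z
  unfold law at hz
  rw [le_div_iff₀ hXc'] at hz
  linarith

end Pool.Agent.Helper88.PP
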