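import Pool.Agent.Helper88.PP.Core
import Pool.Agent.Helper88.PP.Torsion
import Pool.Agent.Helper88.TL.Pair
import Pool.Agent.Helper80.LL.Defs

set_option autoImplicit false

/-!
MP_120218_co, product half (PROD-PAY of helper2, note 2224, without the entropy term): products
pay for the complementary defect `log |D| - Psi / |D|`.
-/

open Finset
open Pool.Agent.Helper84.SP
open Pool.Agent.Helper88.TL
open Pool.Agent.Helper80.LL

namespace Pool.Agent.Helper88.PP

/-- the real-number part of the induction step -/
theorem Main_combine {τ e A A₁ A₀ d u₁ u₀ N w δ v : ℝ} (hτ : 0 ≤ τ) (he : 0 ≤ e)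
    (hs : τ + e = 1) (h0 : u₀ + w * δ ≤ A₀ + d) (h1 : u₁ ≤ A₁ + d)
    (hnode : τ * A₀ + e * A₁ + N ≤ A + w * τ * δ)
    (hv : v = τ * u₀ + e * u₁ + N) : v ≤ A + d := by
  have e0 := mul_le_mul_of_nonneg_left h0 hτ
  have e1 := mul_le_mul_of_nonneg_left h1 he
  have e2 : e = 1 - τ := by linarith
  rw [hv]
  subst e2
  nlinarith

theorem payP {p : ℕ} (hp : p.Prime) :
    ∀ ps : List ℕ, (∀ q ∈ ps, q.Prime) → ∀ D : Finset ℕ, D.Nonempty → (∀ y ∈ D, 0 < y) →
      (∀ y ∈ D, ∀ y' ∈ D, (∀ q ∈ ps, y.factorization q = y'.factorization q) → y = y') →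
      (∀ y ∈ D, ∀ q, y.factorization q < p) →
      ∀ Z Z' : Finset (ℕ →₀ ℤ), Z.Nonempty → Z'.Nonempty → 6 * Z.card < p → 6 * Z'.card < p →
        Real.log D.card - Psi ps D / D.card ≤ 8000000 * (I be Z D + I be Z' D + dd Z Z') := by
  classical
  have hpp : NeZero p := ⟨hp.ne_zero⟩
  intro ps
  induction ps with
  | nil =>
    intro _ D hDne _ hsep _ Z Z' hZ hZ' _ _
    have hc : D.card = 1 := by
      obtain ⟨y, hy⟩ := hDne
      rw [card_eq_one]
      refine ⟨y, ?_⟩
      ext z
      rw [mem_singleton]
      constructor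
      · intro hz
        exact hsep z hz y hy (fun q hq => absurd hq (List.not_mem_nil))
      · rintro rfl
        exact hy
    have a1 := I_nonneg be Z D
    have a2 := I_nonneg be Z' D
    have a3 := dd_nonneg Z Z'
    rw [hc]
    simp only [Psi, Nat.cast_one, Real.log_one, zero_div, sub_zero]
    positivity
  | cons q ps ihps =>
    intro hps
    have hps' : ∀ q' ∈ ps, q'.Prime := fun q' hq' => hps q' (List.mem_cons_of_mem _ hq')
    have key : ∀ n : ℕ, ∀ D : Finset ℕ, D.card = n → D.Nonempty → (∀ y ∈ D, 0 < y) →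
        (∀ y ∈ D, ∀ y' ∈ D,
          (∀ q' ∈ q :: ps, y.factorization q' = y'.factorization q') → y = y') →
        (∀ y ∈ D, ∀ q', y.factorization q' < p) →
        ∀ Z Z' : Finset (ℕ →₀ ℤ), Z.Nonempty → Z'.Nonempty → 6 * Z.card < p →
          6 * Z'.card < p →
        Real.log D.card - Psi (q :: ps) D / D.card ≤
          8000000 * (I be Z D + I be Z' D + dd Z Z') := by
      intro n
      induction n using Nat.strong_induction_on with
      | _ n ih =>
      intro D hcard hDne hpos hsep hlt Z Z' hZ hZ' hpZ hpZ'
      obtain ⟨ym, hym, hmin⟩ := exists_min_image D (fun y => y.factorization q) hDne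
      obtain ⟨l, hl⟩ : ∃ l, l = ym.factorization q := ⟨_, rfl⟩
      rw [← hl] at hmin
      obtain ⟨D₀, hD₀⟩ : ∃ D₀, D₀ = D.filter (fun y => y.factorization q = l) := ⟨_, rfl⟩
      obtain ⟨D₁, hD₁⟩ : ∃ D₁, D₁ = D.filter (fun y => l < y.factorization q) := ⟨_, rfl⟩
      have h₀ : D₀.Nonempty := ⟨ym, by rw [hD₀, mem_filter]; exact ⟨hym, hl.symm⟩⟩
      rcases D₁.eq_empty_or_nonempty with hemp | h₁
      · -- the valuation is constant
        have hall : ∀ y ∈ D, y.factorization q = l := by
          intro y hy
          by_contra hne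
          have : y ∈ D₁ := by
            rw [hD₁, mem_filter]
            exact ⟨hy, lt_of_le_of_ne (hmin y hy) (Ne.symm hne)⟩
          rw [hemp] at this
          exact notMem_empty _ this
        rw [Psi_const hDne hall]
        refine ihps hps' D hDne hpos ?_ hlt Z Z' hZ hZ' hpZ hpZ'
        intro y hy y' hy' h
        apply hsep y hy y' hy'
        intro q' hq'
        rcases List.mem_cons.1 hq' with rfl | hq'
        · rw [hall y hy, hall y' hy']
        · exact h q' hq'
      have hdis : Disjoint D₀ D₁ := by
        rw [hD₁, hD₀, disjoint_filter]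
        intro y _ hy hy'
        omega
      have hun : D = D₀ ∪ D₁ := by
        ext y
        rw [hD₁, hD₀, mem_union, mem_filter, mem_filter]
        constructor
        · intro hy
          rcases (hmin y hy).lt_or_eq with h | h
          · exact Or.inr ⟨hy, h⟩
          · exact Or.inl ⟨hy, h.symm⟩
        · rintro (h | h) <;> exact h.1
      have hD₀v : ∀ y ∈ D₀, y.factorization q = l := fun y hy => by
        rw [hD₀, mem_filter] at hy; exact hy.2
      have hD₁v : ∀ y ∈ D₁, l < y.factorization q := fun y hy => by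
        rw [hD₁, mem_filter] at hy; exact hy.2
      have hsub0 : D₀ ⊆ D := by rw [hD₀]; exact filter_subset _ _
      have hsub1 : D₁ ⊆ D := by rw [hD₁]; exact filter_subset _ _
      have hp1 : (0 : ℝ) < D₁.card := by exact_mod_cast card_pos.2 h₁
      have hp0 : (0 : ℝ) < D₀.card := by exact_mod_cast card_pos.2 h₀
      have hsumN : D.card = D₀.card + D₁.card := by
        rw [hun, card_union_of_disjoint hdis]
      have hsum : (D.card : ℝ) = D₀.card + D₁.card := by exact_mod_cast hsumN
      have hpD : (0 : ℝ) < D.card := by linarith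
      have hlt1 : D₁.card < n := by
        have := card_pos.2 h₀
        omega
      have hlp : l < p := by rw [hl]; exact hlt ym hym q
      have hB1 : ∀ y ∈ D₀, piP q p (be y) = (l : ZMod p) := by
        intro y hy
        rw [piP_be, hD₀v y hy]
      have hB0 : ∀ y ∈ D₁, piP q p (be y) ≠ (l : ZMod p) := by
        intro y hy h
        rw [piP_be, ZMod.natCast_eq_natCast_iff', Nat.mod_eq_of_lt (hlt y (hsub1 hy) q),
          Nat.mod_eq_of_lt hlp] at h
        have := hD₁v y hy
        omega
      obtain ⟨τ, hτ⟩ : ∃ τ : ℝ, τ = D₀.card / D.card := ⟨_, rfl⟩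
      obtain ⟨e, he⟩ : ∃ e : ℝ, e = D₁.card / D.card := ⟨_, rfl⟩
      have hep : 0 < e := by rw [he]; exact div_pos hp1 hpD
      have hτp : 0 < τ := by rw [hτ]; exact div_pos hp0 hpD
      have hs : τ + e = 1 := by
        rw [hτ, he, ← add_div, ← hsum, div_self hpD.ne']
      -- the splitting of the complementary defect
      have hsplit : Real.log D.card - Psi (q :: ps) D / D.card =
          τ * (Real.log D₀.card - Psi ps D₀ / D₀.card) +
            e * (Real.log D₁.card - Psi (q :: ps) D₁ / D₁.card) + -(e * Real.log e) := by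
        rw [Psi_split hmin hD₀ hD₁ h₀]
        have e1 : Real.log ((D.card : ℝ) / D₀.card) = -Real.log τ := by
          rw [hτ, ← Real.log_inv, inv_div]
        have e2 : Real.log D₀.card = Real.log D.card + Real.log τ := by
          rw [hτ, Real.log_div hp0.ne' hpD.ne']; ring
        have e3 : Real.log D₁.card = Real.log D.card + Real.log e := by
          rw [he, Real.log_div hp1.ne' hpD.ne']; ring
        have e4 : ∀ a b c f d L : ℝ, 0 < c → 0 < f → 0 < d →
            (c * -L + a + b) / d = -(c / d * L) + c / d * (a / c) + f / d * (b / f) := by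
          intro a b c f d L hc hf hd
          field_simp
        rw [e1, e4 _ _ _ _ _ _ hp0 hp1 hpD, ← hτ, ← he, e2, e3]
        have e5 : τ = 1 - e := by linarith
        rw [e5]
        ring
      -- induction hypotheses
      have ih1 := ih D₁.card hlt1 D₁ rfl h₁ (fun y hy => hpos y (hsub1 hy))
        (fun y hy y' hy' => hsep y (hsub1 hy) y' (hsub1 hy')) (fun y hy => hlt y (hsub1 hy))
        Z Z' hZ hZ' hpZ hpZ'
      have ih0 : ∀ δ : ℝ, PG (piP q p) Z Z' δ →
          (Real.log D₀.card - Psi ps D₀ / D₀.card) + 8000000 * δ ≤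
          8000000 * (I be Z D₀ + I be Z' D₀) + 8000000 * dd Z Z' := by
        intro δ hδ
        have h5 := pair_classes (α := be) (piP q p) hZ hZ' h₀ hB1
          (u := Real.log D₀.card - Psi ps D₀ / D₀.card) (lam := 0) (w := 8000000)
          (v := 8000000) (by norm_num) hδ (by
            intro Z₁ Z₁' hs1 hs1' hZ₁ hZ₁'
            have hc1 := card_le_card hs1
            have hc1' := card_le_card hs1'
            have h3 := ihps hps' D₀ h₀ (fun y hy => hpos y (hsub0 hy)) (by
              intro y hy y' hy' h
              apply hsep y (hsub0 hy) y' (hsub0 hy')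
              intro q' hq'
              rcases List.mem_cons.1 hq' with rfl | hq'
              · rw [hD₀v y hy, hD₀v y' hy']
              · exact h q' hq') (fun y hy => hlt y (hsub0 hy)) Z₁ Z₁' hZ₁ hZ₁'
              (by omega) (by omega)
            linarith)
        linarith
      -- the node inequality
      obtain ⟨δ, hδ, hnode⟩ := node_core (piP q p) (α := be) hZ hZ' hdis hun h₀ h₁ hB1 hB0
        (η := τ) (θ := e) (Lam := 50) (w := 8000000) (N := -(e * Real.log e)) hτ he
        le_rfl (by norm_num) (fun h => tf_gain hp (piP q p) hZ hZ' hpZ h)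
        (fun h => PG_symm (tf_gain hp (piP q p) hZ' hZ hpZ' h))
        (fun _ => by
          have h3 := Real.log_le_sub_one_of_pos (show 0 < e⁻¹ by positivity)
          rw [Real.log_inv] at h3
          have h4 := mul_le_mul_of_nonneg_left h3 hep.le
          have h5 : e * (e⁻¹ - 1) = 1 - e := by field_simp
          linarith)
        (fun _ => by
          unfold hh
          have h4 : Real.log τ ≤ 0 := Real.log_nonpos hτp.le (by linarith)
          have h5 := mul_nonpos_of_nonneg_of_nonpos hτp.le h4
          linarith)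
      have h4 : (8000000 : ℝ) * (I be Z D + I be Z' D + dd Z Z') =
          8000000 * (I be Z D + I be Z' D) + 8000000 * dd Z Z' := by ring
      have h5 : (8000000 : ℝ) * (I be Z D₁ + I be Z' D₁ + dd Z Z') =
          8000000 * (I be Z D₁ + I be Z' D₁) + 8000000 * dd Z Z' := by ring
      rw [h4]
      rw [h5] at ih1
      exact Main_combine hτp.le hep.le hs (ih0 δ hδ) ih1 hnode hsplit
    intro D hDne hpos hsep hlt Z Z' hZ hZ' hpZ hpZ'
    exact key D.card D rfl hDne hpos hsep hlt Z Z' hZ hZ' hpZ hpZ'

end Pool.Agent.Helper88.PP
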