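import Pool.Agent.Helper88.PP.Stuck

set_option autoImplicit false

/-!
MP_120218_co, project PP: Phase 2, the descent along the path of moduli.
-/

open Finset

namespace Pool.Agent.Helper88.PP

open Pool.Agent.Helper15.BP Pool.Agent.Helper84.TR Pool.Agent.Helper88.RT

variable {Ω Ω' : Type} [Fintype Ω] [Fintype Ω'] {α β : Type}

/-- the column lemma given the pasts, when `Y` can be guessed from its past -/
theorem col_mode {η σ : ℝ} (hη : 0 ≤ η) (hσ : 0 < σ) (hcol : ColProp η σ) {G : Type}
    [AddCommGroup G] {w : Ω → ℝ} {w' : Ω' → ℝ} (hw : IsPr w) (hw' : IsPr w') (X : Ω → G)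
    (Y : Ω' → G) (A : Ω → α) (B : Ω' → β) (g : β → G) :
    CE (prodW w w') (fun p => X p.1) (fun p => (X p.1 + Y p.2, (A p.1, B p.2))) ≤
      (η + mass w' (fun o => Y o ≠ g (B o)) / σ) * CE w X A + η * CE w' Y B := by
  have h1 := col_past hη hσ hcol hw hw' X (fun o => Y o - g (B o)) A B
  have h2 : CE (prodW w w') (fun p => X p.1)
      (fun p => (X p.1 + (Y p.2 - g (B p.2)), (A p.1, B p.2))) =
      CE (prodW w w') (fun p => X p.1) (fun p => (X p.1 + Y p.2, (A p.1, B p.2))) := by
    apply CE_congr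
    · intro o o'
      simp only [Prod.mk.injEq]
      constructor
      · rintro ⟨e1, e2, e3⟩
        refine ⟨?_, e2, e3⟩
        rw [e3] at e1
        have : X o.1 + Y o.2 - g (B o'.2) = X o'.1 + Y o'.2 - g (B o'.2) := by
          rw [add_sub_assoc, e1, add_sub_assoc]
        exact sub_left_injective this
      · rintro ⟨e1, e2, e3⟩
        refine ⟨?_, e2, e3⟩
        rw [e3, ← add_sub_assoc, ← add_sub_assoc, e1]
    · intro o o' _
      exact Iff.rfl
  have h3 : mass w' (fun o => Y o - g (B o) ≠ 0) = mass w' (fun o => Y o ≠ g (B o)) := by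
    congr 1
    funext o
    rw [ne_eq, sub_eq_zero]
  have h4 : CE w' (fun o => Y o - g (B o)) B = CE w' Y B := by
    apply CE_congr
    · intro o o'
      exact Iff.rfl
    · intro o o' e
      rw [e]
      constructor
      · intro h
        exact sub_left_injective h
      · intro h
        rw [h]
  rw [h2, h3, h4] at h1
  exact h1

theorem cast_iff (m : ℕ) (x y : ℤ) : ((x : ℤ) : ZMod m) = ((y : ℤ) : ZMod m) ↔
    x % (m : ℤ) = y % (m : ℤ) := ZMod.intCast_eq_intCast_iff' x y m

theorem mod_of_mod {m m' : ℕ} (h : m ∣ m') {x y : ℤ} (hxy : x % (m' : ℤ) = y % (m' : ℤ)) :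
    x % (m : ℤ) = y % (m : ℤ) := by
  have h1 : (m : ℤ) ∣ (m' : ℤ) := by exact_mod_cast h
  rw [← Int.emod_emod_of_dvd x h1, hxy, Int.emod_emod_of_dvd y h1]

/-- the chain rule for one step -/
theorem chain_step {w : Ω → ℝ} (X : Ω → ℤ) (A : Ω → α) {m m' : ℕ} (h : m ∣ m') :
    CE w X (fun o => (A o, X o % (m : ℤ))) =
      CE w (fun o => ((X o : ℤ) : ZMod m')) (fun o => (A o, X o % (m : ℤ))) +
        CE w X (fun o => (A o, X o % (m' : ℤ))) := by
  have h1 := CE_chain w X (fun o => ((X o : ℤ) : ZMod m')) (fun o => (A o, X o % (m : ℤ)))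
  have h2 : CE w (fun o => (X o, ((X o : ℤ) : ZMod m'))) (fun o => (A o, X o % (m : ℤ))) =
      CE w X (fun o => (A o, X o % (m : ℤ))) := by
    apply CE_congr
    · intro o o'
      exact Iff.rfl
    · intro o o' _
      simp only [Prod.mk.injEq]
      constructor
      · exact fun e => e.1
      · intro e
        exact ⟨e, by rw [e]⟩
  have h3 : CE w X (fun o => (((X o : ℤ) : ZMod m'), (A o, X o % (m : ℤ)))) =
      CE w X (fun o => (A o, X o % (m' : ℤ))) := by
    apply CE_congr
    · intro o o'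
      simp only [Prod.mk.injEq]
      rw [cast_iff]
      constructor
      · rintro ⟨e1, e2, -⟩
        exact ⟨e2, e1⟩
      · rintro ⟨e1, e2⟩
        exact ⟨e2, e1, mod_of_mod h e2⟩
    · intro o o' _
      exact Iff.rfl
  rw [h2, h3] at h1
  exact h1

theorem mj_update {J : ℕ} (q j : Fin J → ℕ) (i : Fin J) :
    mj q (Function.update j i (j i + 1)) = mj q j * q i := by
  rw [mj_split q j i, mj_split q (Function.update j i (j i + 1)) i]
  have h1 : ∏ l ∈ univ.erase i, q l ^ Function.update j i (j i + 1) l =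
      ∏ l ∈ univ.erase i, q l ^ j l := by
    apply prod_congr rfl
    intro l hl
    rw [Function.update_of_ne (mem_erase.1 hl).1]
  rw [h1, Function.update_self, pow_succ]
  ring

/-- **Phase 2.** -/
theorem phase_two {η σ : ℝ} (hη : 0 ≤ η) (hσ : 0 < σ) (hcol : ColProp η σ) {ε : ℝ}
    (hε : ε ≤ η * σ) {J : ℕ} {w : Ω → ℝ} {w' : Ω' → ℝ} (hw : IsPr w) (hw' : IsPr w')
    (q : Fin J → ℕ) (Z : Ω → ℤ) (X : Ω' → ℤ) (VZ : Ω → α) (VX : Ω' → β) (T : ℕ)
    (hTZ : ∀ i o o', ((q i : ℤ) ^ T) ∣ Z o - Z o' → Z o = Z o')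
    (hstuck : ∀ j : Fin J → ℕ, ∃ i, ∃ G : β × ℤ → ℤ,
      mass w' (fun o => X o % ((mj q j * q i : ℕ) : ℤ) ≠
        G (VX o, X o % ((mj q j : ℕ) : ℤ))) ≤ ε) :
    CE (prodW w w') (fun p => Z p.1) (fun p => (Z p.1 + X p.2, (VZ p.1, VX p.2))) ≤
      2 * η * CE w Z VZ + η * CE w' X VX := by
  have hp := hw.prod hw'
  have main : ∀ n : ℕ, ∀ j : Fin J → ℕ, J * T ≤ ∑ i, j i + n →
      CE (prodW w w') (fun p => Z p.1) (fun p => (Z p.1 + X p.2,
        ((VZ p.1, Z p.1 % ((mj q j : ℕ) : ℤ)), (VX p.2, X p.2 % ((mj q j : ℕ) : ℤ))))) ≤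
      2 * η * CE w Z (fun o => (VZ o, Z o % ((mj q j : ℕ) : ℤ))) +
        η * CE w' X (fun o => (VX o, X o % ((mj q j : ℕ) : ℤ))) := by
    intro n
    induction n with
    | zero =>
      intro j hj
      obtain ⟨i₁, -, -⟩ := hstuck j
      have hex : ∃ i, T ≤ j i := by
        by_contra hcon
        push Not at hcon
        have h1 : ∑ i, j i < ∑ _i : Fin J, T :=
          sum_lt_sum_of_nonempty ⟨i₁, mem_univ _⟩ fun i _ => hcon i
        rw [sum_const, card_univ, Fintype.card_fin, smul_eq_mul] at h1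
        omega
      obtain ⟨i, hi⟩ := hex
      rw [CE_zero_of_supp]
      · have h1 := CE_nonneg hw Z (fun o => (VZ o, Z o % ((mj q j : ℕ) : ℤ)))
        have h2 := CE_nonneg hw' X (fun o => (VX o, X o % ((mj q j : ℕ) : ℤ)))
        positivity
      · intro p p' _ _ h
        simp only [Prod.mk.injEq] at h
        apply hTZ i
        have h1 := h.2.1.2
        have h2 : ((mj q j : ℕ) : ℤ) ∣ Z p.1 - Z p'.1 :=
          Int.dvd_of_emod_eq_zero (Int.emod_eq_emod_iff_emod_sub_eq_zero.1 h1)
        refine dvd_trans ?_ h2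
        have h3 : q i ^ T ∣ mj q j :=
          (pow_dvd_pow (q i) hi).trans ⟨_, mj_split q j i⟩
        exact_mod_cast h3
    | succ n ih =>
      intro j hj
      obtain ⟨i, G, hG⟩ := hstuck j
      set m : ℕ := mj q j with hm
      set m' : ℕ := mj q j * q i with hm'
      have hmm : m ∣ m' := Dvd.intro _ rfl
      have hup : mj q (Function.update j i (j i + 1)) = m' := mj_update q j i
      have hsum : ∑ l, Function.update j i (j i + 1) l = ∑ l, j l + 1 := by
        rw [← add_sum_erase univ _ (mem_univ i), ← add_sum_erase univ j (mem_univ i),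
          Function.update_self]
        have h1 : ∑ l ∈ univ.erase i, Function.update j i (j i + 1) l =
            ∑ l ∈ univ.erase i, j l := by
          apply sum_congr rfl
          intro l hl
          rw [Function.update_of_ne (mem_erase.1 hl).1]
        rw [h1]
        ring
      have hrec := ih (Function.update j i (j i + 1)) (by rw [hsum]; omega)
      rw [hup] at hrec
      set A : Ω → α × ℤ := fun o => (VZ o, Z o % (m : ℤ)) with hA
      set B : Ω' → β × ℤ := fun o => (VX o, X o % (m : ℤ)) with hB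
      set cZ : Ω → ZMod m' := fun o => ((Z o : ℤ) : ZMod m') with hcZ
      set cX : Ω' → ZMod m' := fun o => ((X o : ℤ) : ZMod m') with hcX
      -- reveal the column
      have h1 : CE (prodW w w') (fun p => Z p.1) (fun p => (Z p.1 + X p.2, (A p.1, B p.2))) ≤
          CE (prodW w w') (fun p => (Z p.1, cZ p.1))
            (fun p => (Z p.1 + X p.2, (A p.1, B p.2))) := by
        apply CE_mono hp
        intro o o' _ h
        exact congrArg Prod.fst h
      have h2 := CE_chain (prodW w w') (fun p => Z p.1) (fun p => cZ p.1)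
        (fun p => (Z p.1 + X p.2, (A p.1, B p.2)))
      have h3 : CE (prodW w w') (fun p => cZ p.1)
          (fun p => (Z p.1 + X p.2, (A p.1, B p.2))) ≤
          CE (prodW w w') (fun p => cZ p.1) (fun p => (cZ p.1 + cX p.2, (A p.1, B p.2))) := by
        apply CE_anti hp
        intro o o' h
        simp only [Prod.mk.injEq] at h ⊢
        refine ⟨?_, h.2⟩
        simp only [hcZ, hcX]
        rw [← Int.cast_add, ← Int.cast_add, h.1]
      have h4 := col_mode hη hσ hcol hw hw' cZ cX A B (fun b => ((G b : ℤ) : ZMod m'))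
      have h5 : mass w' (fun o => cX o ≠ ((G (B o) : ℤ) : ZMod m')) ≤ ε := by
        refine le_trans (mass_mono hw' ?_) hG
        intro o ho h
        apply ho
        simp only [hB, hcX]
        rw [← h, ZMod.intCast_mod]
      have h6 : CE (prodW w w') (fun p => Z p.1)
          (fun p => (cZ p.1, (Z p.1 + X p.2, (A p.1, B p.2)))) ≤
          CE (prodW w w') (fun p => Z p.1) (fun p => (Z p.1 + X p.2,
            ((VZ p.1, Z p.1 % (m' : ℤ)), (VX p.2, X p.2 % (m' : ℤ))))) := by
        apply CE_anti hp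
        intro o o' h
        simp only [hA, hB, hcZ, Prod.mk.injEq] at h ⊢
        obtain ⟨e1, e2, ⟨e3, e4⟩, e5, e6⟩ := h
        rw [cast_iff] at e1
        refine ⟨e2, ⟨e3, e1⟩, e5, ?_⟩
        have e7 : X o.2 = Z o.1 + X o.2 - Z o.1 := by ring
        have e8 : X o'.2 = Z o'.1 + X o'.2 - Z o'.1 := by ring
        rw [e7, e8, e2]
        exact Int.emod_eq_emod_iff_emod_sub_eq_zero.2 (by
          have := Int.emod_eq_emod_iff_emod_sub_eq_zero.1 e1
          have h9 : (m' : ℤ) ∣ Z o.1 - Z o'.1 := Int.dvd_of_emod_eq_zero this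
          apply Int.emod_eq_zero_of_dvd
          have h10 : Z o'.1 + X o'.2 - Z o.1 - (Z o'.1 + X o'.2 - Z o'.1) =
            -(Z o.1 - Z o'.1) := by ring
          rw [h10]
          exact (dvd_neg).2 h9)
      have h7 := chain_step (w := w) Z VZ hmm
      have h8 := chain_step (w := w') X VX hmm
      have h9 : 0 ≤ CE w cZ A := CE_nonneg hw _ _
      have h10 : mass w' (fun o => cX o ≠ ((G (B o) : ℤ) : ZMod m')) / σ ≤ η := by
        rw [div_le_iff₀ hσ]
        exact h5.trans hε
      have h11 : (η + mass w' (fun o => cX o ≠ ((G (B o) : ℤ) : ZMod m')) / σ) * CE w cZ A ≤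
          2 * η * CE w cZ A := mul_le_mul_of_nonneg_right (by linarith) h9
      rw [h7, h8]
      have h12 : CE (prodW w w') (fun p => Z p.1)
          (fun p => (Z p.1 + X p.2, (A p.1, B p.2))) ≤
          (2 * η * CE w cZ A + η * CE w' cX B) +
          (2 * η * CE w Z (fun o => (VZ o, Z o % (m' : ℤ))) +
            η * CE w' X (fun o => (VX o, X o % (m' : ℤ)))) := by
        linarith
      refine h12.trans (le_of_eq ?_)
      ring
  have h0 := main (J * T) (fun _ => 0) (by omega)
  have hm0 : mj q (fun _ => 0) = 1 := by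
    unfold mj
    simp
  rw [hm0] at h0
  have e1 : CE (prodW w w') (fun p => Z p.1) (fun p => (Z p.1 + X p.2,
        ((VZ p.1, Z p.1 % ((1 : ℕ) : ℤ)), (VX p.2, X p.2 % ((1 : ℕ) : ℤ))))) =
      CE (prodW w w') (fun p => Z p.1) (fun p => (Z p.1 + X p.2, (VZ p.1, VX p.2))) := by
    apply CE_congr
    · intro o o'
      simp
    · intro o o' _
      exact Iff.rfl
  have e2 : CE w Z (fun o => (VZ o, Z o % ((1 : ℕ) : ℤ))) = CE w Z VZ := by
    apply CE_congr
    · intro o o'
      simp
    · intro o o' _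
      exact Iff.rfl
  have e3 : CE w' X (fun o => (VX o, X o % ((1 : ℕ) : ℤ))) = CE w' X VX := by
    apply CE_congr
    · intro o o'
      simp
    · intro o o' _
      exact Iff.rfl
  rw [e1, e2, e3] at h0
  exact h0

end Pool.Agent.Helper88.PP
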