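import Pool.Agent.Helper88.PP.Guess

set_option autoImplicit false

/-!
MP_120218_co, project PP: the path is never stuck.
-/

open Finset

namespace Pool.Agent.Helper88.PP

open Pool.Agent.Helper15.BP Pool.Agent.Helper84.TR Pool.Agent.Helper88.RT

/-- the modulus of the state `j` -/
def mj {J : ℕ} (q j : Fin J → ℕ) : ℕ := ∏ l, q l ^ j l

theorem mj_split {J : ℕ} (q j : Fin J → ℕ) (i : Fin J) :
    mj q j = q i ^ j i * ∏ l ∈ univ.erase i, q l ^ j l :=
  (mul_prod_erase univ (fun l => q l ^ j l) (mem_univ i)).symm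

theorem coprime_rest {J : ℕ} {q : Fin J → ℕ} (hq : ∀ l, (q l).Prime) (hinj : Function.Injective q)
    (j : Fin J → ℕ) (i : Fin J) (s : ℕ) :
    Nat.Coprime (q i ^ s) (∏ l ∈ univ.erase i, q l ^ j l) := by
  apply Nat.Coprime.pow_left
  apply Nat.Coprime.prod_right
  intro l hl
  apply Nat.Coprime.pow_right
  rw [Nat.coprime_primes (hq i) (hq l)]
  intro h
  exact (mem_erase.1 hl).1 (hinj h).symm

/-- the next modulus -/
theorem next_dvd {J : ℕ} {q : Fin J → ℕ} (hq : ∀ l, (q l).Prime) (hinj : Function.Injective q)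
    (j : Fin J → ℕ) {d : ℤ} (h : ((mj q j : ℕ) : ℤ) ∣ d) (i : Fin J)
    (hd : ((q i : ℤ) ^ (j i + 1)) ∣ d) : ((mj q j * q i : ℕ) : ℤ) ∣ d := by
  have h2 : ((∏ l' ∈ univ.erase i, q l' ^ j l' : ℕ) : ℤ) ∣ d := by
    refine dvd_trans ?_ h
    have h3 : (∏ l' ∈ univ.erase i, q l' ^ j l') ∣ mj q j :=
      ⟨q i ^ j i, by rw [mj_split q j i, mul_comm]⟩
    exact_mod_cast h3
  have h3 : IsCoprime ((q i : ℤ) ^ (j i + 1)) ((∏ l' ∈ univ.erase i, q l' ^ j l' : ℕ) : ℤ) := by
    have := Nat.isCoprime_iff_coprime.2 (coprime_rest hq hinj j i (j i + 1))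
    exact_mod_cast this
  have h4 := h3.mul_dvd hd h2
  have h5 : ((mj q j * q i : ℕ) : ℤ) = (q i : ℤ) ^ (j i + 1) *
      ((∏ l' ∈ univ.erase i, q l' ^ j l' : ℕ) : ℤ) := by
    rw [mj_split q j i]
    push_cast
    ring
  rw [h5]
  exact h4

section
variable {Ω : Type} [Fintype Ω]

variable {𝒴 R : Type}

/-- what is known before the prime number `n` -/
def Pn {J : ℕ} (ρ : Fin J → ℕ → 𝒴 → R) (j : Fin J → ℕ) (V : Ω → Fin J → ℕ) (Y : Ω → 𝒴) (n : ℕ)
    (o : Ω) : Fin J → Option (ℕ × R) :=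
  fun l => if (l : ℕ) < n then some (V o l, ρ l (j l - V o l) (Y o)) else none

/-- what is revealed at the prime number `i` -/
def Rv {J : ℕ} (ρ : Fin J → ℕ → 𝒴 → R) (j : Fin J → ℕ) (V : Ω → Fin J → ℕ) (Y : Ω → 𝒴)
    (i : Fin J) (o : Ω) : ℕ × R :=
  (V o i, ρ i (j i - V o i) (Y o))

/-- the sum of the conditional entropies -/
theorem sum_H {J : ℕ} {w : Ω → ℝ} (hw : IsPr w) (ρ : Fin J → ℕ → 𝒴 → R) (j : Fin J → ℕ)
    (V : Ω → Fin J → ℕ) (Y : Ω → 𝒴) : ∑ i : Fin J, CE w (Rv ρ j V Y i) (Pn ρ j V Y i) ≤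
      Ent w (fun o => (V o, Y o)) := by
  have h1 : ∀ n, n ≤ J → ∑ i ∈ univ.filter (fun i : Fin J => (i : ℕ) < n),
      CE w (Rv ρ j V Y i) (Pn ρ j V Y i) ≤ Ent w (Pn ρ j V Y n) := by
    intro n
    induction n with
    | zero =>
      intro _
      rw [filter_eq_empty_iff.2 (by simp), sum_empty]
      exact Ent_nonneg hw _
    | succ n ih =>
      intro hn
      set i₀ : Fin J := ⟨n, by omega⟩ with hi₀
      have h2 : univ.filter (fun i : Fin J => (i : ℕ) < n + 1) =
          insert i₀ (univ.filter (fun i : Fin J => (i : ℕ) < n)) := by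
        ext i
        simp only [mem_filter, mem_univ, true_and, mem_insert, hi₀, Fin.ext_iff]
        omega
      rw [h2, sum_insert (by simp [hi₀])]
      have h3 := ih (by omega)
      have h4 : CE w (Rv ρ j V Y i₀) (Pn ρ j V Y i₀) = Ent w (Pn ρ j V Y (n + 1)) -
          Ent w (Pn ρ j V Y n) := by
        unfold CE
        congr 1
        apply Ent_congr
        intro o o'
        simp only [Prod.mk.injEq]
        constructor
        · rintro ⟨e1, e2⟩
          funext l
          have e3 := congrFun e2 l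
          unfold Pn at e3 ⊢
          by_cases hl : (l : ℕ) < n
          · rw [if_pos (by rw [hi₀]; exact hl), if_pos (by rw [hi₀]; exact hl)] at e3
            rw [if_pos (by omega), if_pos (by omega)]
            exact e3
          · by_cases hl' : (l : ℕ) < n + 1
            · have e4 : l = i₀ := by
                rw [hi₀, Fin.ext_iff]
                simp only
                omega
              rw [if_pos hl', if_pos hl', e4]
              exact congrArg some e1
            · rw [if_neg hl', if_neg hl']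
        · intro e
          constructor
          · have e3 := congrFun e i₀
            unfold Pn at e3
            rw [if_pos (by simp [hi₀]), if_pos (by simp [hi₀])] at e3
            exact Option.some.inj e3
          · funext l
            have e3 := congrFun e l
            unfold Pn at e3 ⊢
            by_cases hl : (l : ℕ) < n
            · rw [if_pos (by omega), if_pos (by omega)] at e3
              rw [if_pos (by rw [hi₀]; exact hl), if_pos (by rw [hi₀]; exact hl)]
              exact e3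
            · rw [if_neg (by rw [hi₀]; exact hl), if_neg (by rw [hi₀]; exact hl)]
      rw [h4]
      linarith
  have h2 := h1 J le_rfl
  have h3 : univ.filter (fun i : Fin J => (i : ℕ) < J) = univ := by
    ext i
    simp
  rw [h3] at h2
  refine h2.trans (Ent_mono hw ?_)
  intro o o' h
  obtain ⟨e1, e2⟩ := Prod.ext_iff.mp h
  simp only at e1 e2
  funext l
  unfold Pn
  rw [e1, e2]

/-- **The claim**: the error of the best guess of the next state, from the entropy revealed at the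
prime number `i`. -/
theorem guess_step {J : ℕ} {w : Ω → ℝ} (hw : IsPr w) {q : Fin J → ℕ} (hq : ∀ l, (q l).Prime)
    (hinj : Function.Injective q) (j : Fin J → ℕ) (X : Ω → ℤ) (V : Ω → Fin J → ℕ) (Y : Ω → 𝒴)
    (ρ : Fin J → ℕ → 𝒴 → R)
    (hρ : ∀ l s a a', ρ l (s + 1) a = ρ l (s + 1) a' → ρ l s a = ρ l s a')
    (hker : ∀ o o', V o = V o' → ∀ l s, (((q l : ℤ) ^ s) ∣ X o - X o' ↔
      ρ l (s - V o l) (Y o) = ρ l (s - V o l) (Y o')))
    (b : Fin J → ℕ) (hb : ∀ i, 1 ≤ b i)
    (hsp : ∀ (i : Fin J) (y : 𝒴) (u : Fin J → ℕ),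
      (b i : ℝ) * mass w (fun o => Y o = y ∧ ∀ l, l ≤ i → V o l = u l) ≤
        mass w (fun o => Y o = y ∧ ∀ l, l < i → V o l = u l))
    (i : Fin J) (e : ℝ) (he : 0 < e) :
    ∃ G : (Fin J → ℕ) × ℤ → ℤ, mass w (fun o => X o % ((mj q j * q i : ℕ) : ℤ) ≠
      G (V o, X o % ((mj q j : ℕ) : ℤ))) ≤
      e + 1 / b i + 1 / (e * b i) * CE w (Rv ρ j V Y i) (Pn ρ j V Y i) := by
  classical
  obtain ⟨G, hG⟩ := stop_chain hw (fun o => V o i) (Pn ρ j V Y i)
    (fun s o => ρ i s (Y o)) (by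
      intro s o o' h
      exact hρ i s _ _ h) (j i)
  -- the label
  set κ : Ω → 𝒴 × ({l : Fin J // l < i} → ℕ) := fun o => (Y o, fun l => V o l) with hκ
  set Pκ : 𝒴 × ({l : Fin J // l < i} → ℕ) → (Fin J → Option (ℕ × R)) := fun k l =>
    if h : l < i then some (k.2 ⟨l, h⟩, ρ l (j l - k.2 ⟨l, h⟩) k.1) else none with hPκ
  have hPκ' : ∀ o, Pκ (κ o) = Pn ρ j V Y i o := by
    intro o
    funext l
    simp only [hPκ, hκ, Pn]
    by_cases h : l < i
    · rw [dif_pos h, if_pos (show (l : ℕ) < (i : ℕ) from h)]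
    · rw [dif_neg h, if_neg (show ¬ (l : ℕ) < (i : ℕ) from h)]
  set Q : 𝒴 × ({l : Fin J // l < i} → ℕ) → ℕ → Prop := fun k a => a ≤ j i ∧
    (a ≠ 0 → some (ρ i (j i - (a - 1)) k.1) ≠
      G (a - 1) (Pκ k, ρ i (j i - a) k.1)) with hQ
  have hspκ : ∀ k a, (b i : ℝ) * mass w (fun o => κ o = k ∧ V o i = a) ≤
      mass w (fun o => κ o = k) := by
    rintro ⟨y, u⟩ a
    set u' : Fin J → ℕ := fun l => if h : l < i then u ⟨l, h⟩ else a with hu'
    have h1 := hsp i y u'
    have h2 : mass w (fun o => κ o = (y, u) ∧ V o i = a) ≤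
        mass w (fun o => Y o = y ∧ ∀ l, l ≤ i → V o l = u' l) := by
      apply mass_mono hw
      rintro o ⟨e1, e2⟩
      simp only [hκ, Prod.mk.injEq] at e1
      refine ⟨e1.1, ?_⟩
      intro l hl
      rcases hl.lt_or_eq with h | h
      · simp only [hu', dif_pos h]
        exact congrFun e1.2 ⟨l, h⟩
      · rw [h]
        simp only [hu', lt_irrefl, dif_neg, not_false_eq_true]
        exact e2
    have h3 : mass w (fun o => Y o = y ∧ ∀ l, l < i → V o l = u' l) ≤
        mass w (fun o => κ o = (y, u)) := by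
      apply mass_mono hw
      rintro o ⟨e1, e2⟩
      simp only [hκ, Prod.mk.injEq]
      refine ⟨e1, ?_⟩
      funext l
      have e3 := e2 l.1 l.2
      simp only [hu', dif_pos l.2] at e3
      exact e3
    have hb0 : (0 : ℝ) ≤ b i := Nat.cast_nonneg _
    have h4 := mul_le_mul_of_nonneg_left h2 hb0
    linarith
  have hdom := dominate hw κ (fun o => V o i) (b i) (hb i) e he hspκ Q (j i + 1) (by
    intro k a ha h
    have := h.1
    omega)
  -- the sum
  have hsum : ∑ a ∈ range (j i + 1), mass w (fun o => V o i < a ∧ Q (κ o) a) ≤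
      CE w (Rv ρ j V Y i) (Pn ρ j V Y i) := by
    rw [sum_range_succ']
    have h0 : mass w (fun o => V o i < 0 ∧ Q (κ o) 0) = 0 := by
      apply mass_zero
      rintro o ⟨h1, -⟩
      omega
    rw [h0, add_zero]
    refine le_trans (sum_le_sum ?_) hG
    intro a _
    apply mass_mono hw
    rintro o ⟨h1, h2⟩
    refine ⟨h1, ?_⟩
    have h3 := h2.2 (by omega)
    rw [Nat.add_sub_cancel, hPκ'] at h3
    exact h3
  -- the guess
  set good : Ω → Prop := fun o => ¬ Q (κ o) (V o i) with hgood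
  set GG : (Fin J → ℕ) × ℤ → ℤ := fun π =>
    if h : ∃ o, (V o, X o % ((mj q j : ℕ) : ℤ)) = π ∧ good o then
      X h.choose % ((mj q j * q i : ℕ) : ℤ) else 0 with hGG
  refine ⟨GG, ?_⟩
  have hkey : ∀ o, good o → X o % ((mj q j * q i : ℕ) : ℤ) =
      GG (V o, X o % ((mj q j : ℕ) : ℤ)) := by
    intro o ho
    have hex : ∃ o', (V o', X o' % ((mj q j : ℕ) : ℤ)) = (V o, X o % ((mj q j : ℕ) : ℤ)) ∧
        good o' := ⟨o, rfl, ho⟩
    simp only [hGG]
    rw [dif_pos hex]
    obtain ⟨h1, ho'⟩ := hex.choose_spec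
    set o' := hex.choose with ho'def
    obtain ⟨hV, hm⟩ := Prod.ext_iff.mp h1
    simp only at hV hm
    have hd : ((mj q j : ℕ) : ℤ) ∣ X o' - X o :=
      Int.dvd_of_emod_eq_zero (Int.emod_eq_emod_iff_emod_sub_eq_zero.1 hm)
    have hdl : ∀ l, ((q l : ℤ) ^ j l) ∣ X o' - X o := by
      intro l
      refine dvd_trans ?_ hd
      have h3 : q l ^ j l ∣ mj q j := ⟨_, mj_split q j l⟩
      exact_mod_cast h3
    have hdig : ∀ l, ρ l (j l - V o l) (Y o') = ρ l (j l - V o l) (Y o) := by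
      intro l
      have e1 := (hker o' o hV l (j l)).1 (hdl l)
      rw [hV] at e1
      exact e1
    have hP : Pn ρ j V Y i o' = Pn ρ j V Y i o := by
      funext l
      unfold Pn
      rw [hV, hdig l]
    have hnext : ((q i : ℤ) ^ (j i + 1)) ∣ (X o' - X o) := by
      apply (hker o' o hV i (j i + 1)).2
      rw [hV]
      by_cases hle : V o i ≤ j i
      · by_cases h0 : V o i = 0
        · -- impossible
          exact absurd ⟨hle, fun h => absurd h0 h⟩ ho
        · simp only [hgood, hQ] at ho ho'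
          have e2 : some (ρ i (j i - (V o i - 1)) (Y o)) =
              G (V o i - 1) (Pκ (κ o), ρ i (j i - V o i) (Y o)) := by
            by_contra hne
            exact ho ⟨hle, fun _ => hne⟩
          rw [hV] at ho'
          have e4 : some (ρ i (j i - (V o i - 1)) (Y o')) =
              G (V o i - 1) (Pκ (κ o'), ρ i (j i - V o i) (Y o')) := by
            by_contra hne
            exact ho' ⟨hle, fun _ => hne⟩
          rw [hPκ'] at e2 e4
          rw [hP, hdig i, ← e2] at e4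
          have e5 : j i - (V o i - 1) = j i + 1 - V o i := by omega
          rw [e5] at e4
          exact Option.some.inj e4
      · have e1 := (hker o' o hV i 0).1 (by rw [pow_zero]; exact one_dvd _)
        rw [hV] at e1
        rw [show j i + 1 - V o i = 0 - V o i by omega]
        exact e1
    have e6 := next_dvd hq hinj j hd i hnext
    exact (Int.emod_eq_emod_iff_emod_sub_eq_zero.2 (Int.emod_eq_zero_of_dvd e6)).symm
  have h1 : mass w (fun o => X o % ((mj q j * q i : ℕ) : ℤ) ≠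
      GG (V o, X o % ((mj q j : ℕ) : ℤ))) ≤ mass w (fun o => Q (κ o) (V o i)) := by
    apply mass_mono hw
    intro o ho
    by_contra hcon
    exact ho (hkey o hcon)
  have hb0 : (0 : ℝ) < b i := by exact_mod_cast hb i
  have h2 : 1 / (e * b i) * ∑ a ∈ range (j i + 1), mass w (fun o => V o i < a ∧ Q (κ o) a) ≤
      1 / (e * b i) * CE w (Rv ρ j V Y i) (Pn ρ j V Y i) :=
    mul_le_mul_of_nonneg_left hsum (by positivity)
  linarith

/-- **The path is never stuck.** -/
theorem never_stuck {J : ℕ} {w : Ω → ℝ} (hw : IsPr w) {q : Fin J → ℕ} (hq : ∀ l, (q l).Prime)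
    (hinj : Function.Injective q) (j : Fin J → ℕ) (X : Ω → ℤ) (V : Ω → Fin J → ℕ) (Y : Ω → 𝒴)
    (ρ : Fin J → ℕ → 𝒴 → R)
    (hρ : ∀ l s a a', ρ l (s + 1) a = ρ l (s + 1) a' → ρ l s a = ρ l s a')
    (hker : ∀ o o', V o = V o' → ∀ l s, (((q l : ℤ) ^ s) ∣ X o - X o' ↔
      ρ l (s - V o l) (Y o) = ρ l (s - V o l) (Y o')))
    (b : Fin J → ℕ) (hb : ∀ i, 1 ≤ b i)
    (hsp : ∀ (i : Fin J) (y : 𝒴) (u : Fin J → ℕ),
      (b i : ℝ) * mass w (fun o => Y o = y ∧ ∀ l, l ≤ i → V o l = u l) ≤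
        mass w (fun o => Y o = y ∧ ∀ l, l < i → V o l = u l))
    (ε L : ℝ) (hε : 0 < ε) (hL : Ent w (fun o => (V o, Y o)) ≤ L)
    (hsum : 8 * L / ε ^ 2 + 4 * J / ε < ∑ i, (b i : ℝ)) :
    ∃ i, ∃ G : (Fin J → ℕ) × ℤ → ℤ, mass w (fun o => X o % ((mj q j * q i : ℕ) : ℤ) ≠
      G (V o, X o % ((mj q j : ℕ) : ℤ))) ≤ ε := by
  by_contra hcon
  push Not at hcon
  have h1 : ∀ i, (b i : ℝ) * ε ^ 2 / 8 ≤ CE w (Rv ρ j V Y i) (Pn ρ j V Y i) + ε / 2 := by
    intro i
    obtain ⟨G, hG⟩ := guess_step hw hq hinj j X V Y ρ hρ hker b hb hsp i (ε / 4) (by positivity)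
    have h2 := hcon i G
    have hb0 : (0 : ℝ) < b i := by exact_mod_cast hb i
    set H := CE w (Rv ρ j V Y i) (Pn ρ j V Y i) with hH
    have h3 : ε < ε / 4 + 1 / b i + 1 / (ε / 4 * b i) * H := lt_of_lt_of_le h2 hG
    have h4 : ε * b i < (ε / 4 + 1 / b i + 1 / (ε / 4 * b i) * H) * b i :=
      mul_lt_mul_of_pos_right h3 hb0
    have h5 : (ε / 4 + 1 / b i + 1 / (ε / 4 * b i) * H) * b i = ε / 4 * b i + 1 + 4 / ε * H := by
      field_simp
    rw [h5] at h4
    have h6 : (ε * b i) * (ε / 4) < (ε / 4 * b i + 1 + 4 / ε * H) * (ε / 4) :=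
      mul_lt_mul_of_pos_right h4 (by positivity)
    have h7 : (ε / 4 * b i + 1 + 4 / ε * H) * (ε / 4) = ε ^ 2 / 16 * b i + ε / 4 + H := by
      field_simp
      ring
    rw [h7] at h6
    have h8 : 0 < ε ^ 2 * b i := by positivity
    nlinarith
  have h2 := sum_le_sum fun i (_ : i ∈ (univ : Finset (Fin J))) => h1 i
  rw [sum_add_distrib, sum_const, card_univ, Fintype.card_fin, nsmul_eq_mul, ← sum_div,
    ← sum_mul] at h2
  have h3 := (sum_H hw ρ j V Y).trans hL
  have h4 : (∑ i, (b i : ℝ)) * ε ^ 2 / 8 ≤ L + J * (ε / 2) := by linarith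
  have h5 : (8 * L / ε ^ 2 + 4 * J / ε) * ε ^ 2 / 8 < (∑ i, (b i : ℝ)) * ε ^ 2 / 8 := by
    apply div_lt_div_of_pos_right _ (by norm_num)
    exact mul_lt_mul_of_pos_right hsum (by positivity)
  have h6 : (8 * L / ε ^ 2 + 4 * J / ε) * ε ^ 2 / 8 = L + J * (ε / 2) := by
    field_simp
    ring
  linarith

end

end Pool.Agent.Helper88.PP
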