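import Pool.Agent.Helper88.PP.Unif

set_option autoImplicit false

/-!
MP_120218_co, project PP: the sum of a spread set and an arbitrary set.
-/

open Finset

namespace Pool.Agent.Helper88.PP

open Pool.Agent.Helper15.BP Pool.Agent.Helper84.TR Pool.Agent.Helper88.RT

open Classical in
/-- the sum of a spread set and an arbitrary set -/
theorem spread_sum (hP1 : PhaseOne) (η : ℝ) (hη : 0 < η) : ∃ (ε₁ K : ℝ), 0 < ε₁ ∧ ε₁ ≤ 1 ∧ 0 < K ∧
    ∀ (J : ℕ) (q : Fin J → ℕ) (B : Finset ℤ) (𝒴 R : Type) (κ : ℤ → 𝒴)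
      (ρ : Fin J → ℕ → 𝒴 → R) (b : Fin J → ℕ), (∀ l, (q l).Prime) → Function.Injective q →
      (0 : ℤ) ∉ B → B.Nonempty → LabOK q B κ ρ → (∀ i, 1 ≤ b i) →
      (∀ (i : Fin J) (y : 𝒴) (u : Fin J → ℕ),
        b i * (B.filter (fun x => κ x = y ∧ ∀ l, l ≤ i → padicValInt (q l) x = u l)).card ≤
          (B.filter (fun x => κ x = y ∧ ∀ l, l < i → padicValInt (q l) x = u l)).card) →
      8 * Real.log B.card / ε₁ ^ 2 + 4 * J / ε₁ < ∑ i, (b i : ℝ) →
      ∀ D : Finset ℤ, D.Nonempty →
        (1 - 3 * η) * (Real.log D.card + Real.log B.card) - K * J ≤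
          Real.log ((sumS B D).card) := by
  obtain ⟨σ, hσ, hσ', hcol⟩ := group_column η hη
  obtain ⟨K, hK, hP⟩ := hP1 η hη
  refine ⟨min (η * σ) 1, K, by positivity, min_le_right _ _, hK, ?_⟩
  set ε₁ : ℝ := min (η * σ) 1 with hε₁
  have hε₁0 : 0 < ε₁ := by positivity
  intro J q B 𝒴 R κ ρ b hq hinj hB0 hBne hlab hb hspr hsum D hDne
  have hBcard : (0 : ℝ) < B.card := by exact_mod_cast hBne.card_pos
  set w : {x // x ∈ D} → ℝ := uw D with hwdef
  set w' : {x // x ∈ B} → ℝ := uw B with hw'def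
  have hw : IsPr w := uw_isPr hDne
  have hw' : IsPr w' := uw_isPr hBne
  have hp := hw.prod hw'
  set Z : {x // x ∈ D} → ℤ := fun o => (o : ℤ) with hZ
  set X : {x // x ∈ B} → ℤ := fun o => (o : ℤ) with hX
  set V : {x // x ∈ B} → Fin J → ℕ := fun o l => padicValInt (q l) (o : ℤ) with hV
  have hEZ : Ent w Z = Real.log D.card := Ent_uw hDne
  have hEX : Ent w' X = Real.log B.card := Ent_uw hBne
  have hEZ0 : 0 ≤ Ent w Z := Ent_nonneg hw _
  have hEX0 : 0 ≤ Ent w' X := Ent_nonneg hw' _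
  -- never stuck
  have hstuck : ∀ j : Fin J → ℕ, ∃ i, ∃ G : (Fin J → ℕ) × ℤ → ℤ,
      mass w' (fun o => X o % ((mj q j * q i : ℕ) : ℤ) ≠
        G (V o, X o % ((mj q j : ℕ) : ℤ))) ≤ ε₁ := by
    intro j
    refine never_stuck hw' hq hinj j X V (fun o => κ (o : ℤ)) ρ hlab.mono ?_ b hb ?_ ε₁
      (Real.log B.card) hε₁0 ?_ hsum
    · intro o o' hVo l s
      exact hlab.ker o o.2 o' o'.2 (fun l => congrFun hVo l) l s
    · intro i y u
      have h1 := hspr i y u
      have e1 : mass w' (fun o => κ (o : ℤ) = y ∧ ∀ l, l ≤ i → V o l = u l) =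
          ((B.filter (fun x => κ x = y ∧ ∀ l, l ≤ i → padicValInt (q l) x = u l)).card : ℝ) /
            B.card := mass_uw (Y := B)
              (fun x => κ x = y ∧ ∀ l, l ≤ i → padicValInt (q l) x = u l)
      have e2 : mass w' (fun o => κ (o : ℤ) = y ∧ ∀ l, l < i → V o l = u l) =
          ((B.filter (fun x => κ x = y ∧ ∀ l, l < i → padicValInt (q l) x = u l)).card : ℝ) /
            B.card := mass_uw (Y := B)
              (fun x => κ x = y ∧ ∀ l, l < i → padicValInt (q l) x = u l)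
      rw [e1, e2, ← mul_div_assoc]
      apply div_le_div_of_nonneg_right _ hBcard.le
      exact_mod_cast h1
    · rw [← hEX]
      apply Ent_mono hw'
      intro o o' h
      have h1 : o = o' := Subtype.ext h
      rw [h1]
  -- the truncation
  set M : ℕ := max (B.sup Int.natAbs) (D.sup Int.natAbs) with hM
  set T : ℕ := 2 * M + 1 with hT
  have hMB : ∀ x ∈ B, x.natAbs ≤ M := fun x hx =>
    (Finset.le_sup (f := Int.natAbs) hx).trans (le_max_left _ _)
  have hMD : ∀ x ∈ D, x.natAbs ≤ M := fun x hx =>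
    (Finset.le_sup (f := Int.natAbs) hx).trans (le_max_right _ _)
  have hTZ : ∀ i (o o' : {x // x ∈ D}), ((q i : ℤ) ^ T) ∣ Z o - Z o' → Z o = Z o' := by
    intro i o o' h
    by_contra hne
    have h1 : Z o - Z o' ≠ 0 := sub_ne_zero.2 hne
    have h2 : q i ^ T ≤ (Z o - Z o').natAbs := by
      apply Nat.le_of_dvd (Int.natAbs_pos.mpr h1)
      have h4 := Int.natAbs_dvd_natAbs.2 h
      rwa [Int.natAbs_pow, Int.natAbs_natCast] at h4
    have h3 : (Z o - Z o').natAbs ≤ 2 * M := by
      have e1 := hMD o o.2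
      have e2 := hMD o' o'.2
      simp only [hZ]
      omega
    have h4 := natAbs_lt_pow (hq i).two_le (show 2 * M < T by omega)
    omega
  set P : Finset ℕ := univ.image q with hPdef
  have hPcard : P.card = J := by
    rw [hPdef, card_image_of_injective _ hinj, card_univ, Fintype.card_fin]
  have hphase2 := phase_two hη.le hσ hcol (min_le_left (η * σ) 1) hw hw' q Z X
    (fun o => vP T P (Z o)) V T hTZ hstuck
  have hphase1 := hP {x // x ∈ D} {x // x ∈ B} w w' Z X T P hw hw'
  rw [hPcard] at hphase1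
  -- the valuations of X
  have hvX : ∀ o o' : {x // x ∈ B}, vP T P (X o) = vP T P (X o') ↔ V o = V o' := by
    have hval : ∀ (o : {x // x ∈ B}) (l : Fin J), vP T P (X o) (q l) = V o l := by
      intro o l
      unfold vP
      rw [if_pos (mem_image_of_mem q (mem_univ l))]
      refine vt_eq (hq l) (fun h => hB0 (h ▸ o.2)) ?_
      have h1 := hMB o o.2
      show (o : ℤ).natAbs < T
      omega
    intro o o'
    constructor
    · intro h
      funext l
      rw [← hval, ← hval, h]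
    · intro h
      funext p
      by_cases hp' : p ∈ P
      · obtain ⟨l, -, rfl⟩ := mem_image.1 hp'
        rw [hval, hval, h]
      · unfold vP
        rw [if_neg hp', if_neg hp']
  -- the entropy of the sum
  have h1 : CE (prodW w w') (fun p => Z p.1) (fun p => Z p.1 + X p.2) ≤
      CE (prodW w w') (fun p => (Z p.1, (vP T P (Z p.1), vP T P (X p.2))))
        (fun p => Z p.1 + X p.2) := by
    apply CE_mono hp
    intro o o' _ h
    exact congrArg Prod.fst h
  have h2 := CE_chain (prodW w w') (fun p => Z p.1) (fun p => (vP T P (Z p.1), vP T P (X p.2)))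
    (fun p => Z p.1 + X p.2)
  have h3 : CE (prodW w w') (fun p => Z p.1)
      (fun p => ((vP T P (Z p.1), vP T P (X p.2)), Z p.1 + X p.2)) =
      CE (prodW w w') (fun p => Z p.1) (fun p => (Z p.1 + X p.2, (vP T P (Z p.1), V p.2))) := by
    apply CE_congr
    · intro o o'
      simp only [Prod.mk.injEq]
      rw [hvX]
      tauto
    · intro o o' _
      exact Iff.rfl
  have h4 : CE w Z (fun o => vP T P (Z o)) ≤ Ent w Z := CE_le_Ent hw _ _
  have h5 : CE w' X V ≤ Ent w' X := CE_le_Ent hw' _ _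
  have h6 : Ent (prodW w w') (fun p => (Z p.1, Z p.1 + X p.2)) = Ent w Z + Ent w' X := by
    rw [← Ent_prod hw hw' Z X]
    apply Ent_congr
    intro o o'
    simp only [Prod.mk.injEq]
    constructor
    · rintro ⟨e1, e2⟩
      exact ⟨e1, by rw [e1] at e2; exact add_left_cancel e2⟩
    · rintro ⟨e1, e2⟩
      exact ⟨e1, by rw [e1, e2]⟩
  have h7 : CE (prodW w w') (fun p => Z p.1) (fun p => Z p.1 + X p.2) =
      Ent w Z + Ent w' X - Ent (prodW w w') (fun p => Z p.1 + X p.2) := by
    unfold CE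
    rw [h6]
  have h8 : Ent (prodW w w') (fun p => Z p.1 + X p.2) ≤ Real.log ((sumS B D).card) := by
    apply Ent_le_log_card hp
    rintro ⟨o, o'⟩
    unfold sumS
    rw [mem_image]
    exact ⟨(o', o), mem_product.2 ⟨o'.2, o.2⟩, add_comm _ _⟩
  rw [← hEZ, ← hEX]
  have h9 : 2 * η * CE w Z (fun o => vP T P (Z o)) ≤ 2 * η * Ent w Z :=
    mul_le_mul_of_nonneg_left h4 (by positivity)
  have h10 : η * CE w' X V ≤ η * Ent w' X := mul_le_mul_of_nonneg_left h5 hη.le
  rw [h2, h3, h7] at h1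
  have h11 : 0 ≤ η * Ent w' X := by positivity
  nlinarith

end Pool.Agent.Helper88.PP
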