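import Pool.Agent.Helper88.PP.Path
import Pool.Agent.Helper88.PP.Defs3

set_option autoImplicit false

/-!
MP_120218_co, project PP: uniform laws, truncated valuations, numerics.
-/

open Finset

namespace Pool.Agent.Helper88.PP

open Pool.Agent.Helper15.BP Pool.Agent.Helper84.TR Pool.Agent.Helper88.RT

/-- uniform weights on a finset -/
noncomputable def uw (Y : Finset ℤ) : {x // x ∈ Y} → ℝ := fun _ => 1 / (Y.card : ℝ)

theorem uw_isPr {Y : Finset ℤ} (hY : Y.Nonempty) : IsPr (uw Y) := by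
  have h0 : (0 : ℝ) < Y.card := by exact_mod_cast hY.card_pos
  refine ⟨fun _ => by unfold uw; positivity, ?_⟩
  unfold uw
  rw [Finset.sum_const, Finset.card_univ, Fintype.card_coe, nsmul_eq_mul]
  field_simp

theorem mass_uw {Y : Finset ℤ} (P : ℤ → Prop) [DecidablePred P] :
    mass (uw Y) (fun x => P x) = ((Y.filter P).card : ℝ) / Y.card := by
  classical
  have h2 : mass (uw Y) (fun x => P x) =
      ∑ o : {x // x ∈ Y}, (if P o then 1 / (Y.card : ℝ) else 0) := by
    unfold mass uw
    refine Finset.sum_congr rfl fun o _ => ?_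
    by_cases h : P o
    · simp [h]
    · simp [h]
  rw [h2, ← Finset.sum_filter, Finset.sum_const, nsmul_eq_mul, mul_one_div]
  congr 2
  refine Finset.card_bij (fun x _ => (x : ℤ)) ?_ ?_ ?_
  · intro x hx
    rw [mem_filter] at hx ⊢
    exact ⟨x.2, hx.2⟩
  · intro x _ y _ hxy
    exact Subtype.ext hxy
  · intro b hb
    rw [mem_filter] at hb
    exact ⟨⟨b, hb.1⟩, by rw [mem_filter]; exact ⟨mem_univ _, hb.2⟩, rfl⟩

theorem Ent_uw {Y : Finset ℤ} (hY : Y.Nonempty) :
    Ent (uw Y) (fun x => (x : ℤ)) = Real.log Y.card := by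
  classical
  have h0 : (0 : ℝ) < Y.card := by exact_mod_cast hY.card_pos
  have hpr : ∀ o : {x // x ∈ Y}, pr (uw Y) (fun x => (x : ℤ)) (o : ℤ) = 1 / (Y.card : ℝ) := by
    intro o
    unfold pr
    rw [Finset.sum_eq_single o]
    · simp [uw]
    · intro b _ hb
      rw [if_neg]
      intro h
      exact hb (Subtype.ext h)
    · intro h; exact absurd (Finset.mem_univ _) h
  have h1 : Ent (uw Y) (fun x => (x : ℤ)) = ∑ _o : {x // x ∈ Y}, (1 / (Y.card : ℝ)) *
      Real.log Y.card := by
    unfold Ent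
    refine Finset.sum_congr rfl fun o _ => ?_
    rw [hpr o, one_div, Real.log_inv, neg_neg]
    simp [uw]
  rw [h1, Finset.sum_const, Finset.card_univ, Fintype.card_coe, nsmul_eq_mul]
  field_simp

theorem natAbs_lt_pow {q T : ℕ} (hq : 2 ≤ q) {M : ℕ} (hM : M < T) : M < q ^ T :=
  lt_of_lt_of_le (lt_trans hM Nat.lt_two_pow_self) (Nat.pow_le_pow_left hq T)

/-- the truncated valuation is the valuation -/
theorem vt_eq {T q : ℕ} (hq : q.Prime) {x : ℤ} (hx : x ≠ 0) (hT : x.natAbs < T) :
    vt T q x = padicValInt q x := by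
  have : Fact q.Prime := ⟨hq⟩
  have h1 : padicValInt q x < T := by
    by_contra hcon
    push Not at hcon
    have h2 : ((q : ℤ)) ^ T ∣ x := by
      rw [padicValInt_dvd_iff]
      exact Or.inr hcon
    have h3 : q ^ T ≤ x.natAbs := by
      apply Nat.le_of_dvd (Int.natAbs_pos.mpr hx)
      have h4 := Int.natAbs_dvd_natAbs.2 h2
      rwa [Int.natAbs_pow, Int.natAbs_natCast] at h4
    have h5 := natAbs_lt_pow hq.two_le hT
    omega
  unfold vt
  have h2 : (range T).filter (fun t => ((q : ℤ) ^ (t + 1) ∣ x)) = range (padicValInt q x) := by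
    ext t
    rw [mem_filter, mem_range, mem_range, padicValInt_dvd_iff]
    constructor
    · rintro ⟨-, h | h⟩
      · exact absurd h hx
      · omega
    · intro h
      exact ⟨by omega, Or.inr (by omega)⟩
  rw [h2, card_range]

/-- entropy is at most the logarithm of the number of values -/
theorem Ent_le_log_card {Ω : Type} [Fintype Ω] {w : Ω → ℝ} (hw : IsPr w) (S : Ω → ℤ)
    (F : Finset ℤ) (hF : ∀ o, S o ∈ F) : Ent w S ≤ Real.log F.card := by
  have e2 : Ent w S ≤ CE w S (fun _ => (0 : ℤ)) := by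
    unfold CE
    rw [Ent_const hw, sub_zero]
    exact Ent_mono hw fun o o' e => congrArg Prod.fst e
  refine e2.trans (CE_le_log hw S _ _ ?_)
  intro o
  have hsub : {a : ℤ | ∃ o', (fun _ : Ω => (0 : ℤ)) o' = (fun _ : Ω => (0 : ℤ)) o ∧ S o' = a} ⊆
      (F : Set ℤ) := by
    rintro a ⟨o', -, rfl⟩
    exact hF o'
  refine le_trans (Set.ncard_le_ncard hsub (Finset.finite_toSet _)) ?_
  rw [Set.ncard_coe_finset]

/-- `(c L / J) ^ J` is a small power of `e ^ L` if `J` is small compared to `L` -/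
theorem pow_small (c δ : ℝ) (hc : 1 ≤ c) (hδ : 0 < δ) : ∃ C₀ : ℝ, 1 ≤ C₀ ∧
    ∀ (C L : ℝ) (J : ℕ), C₀ ≤ C → 0 < L → 1 ≤ J → C * J ≤ L →
      (c * L / J) ^ J ≤ Real.exp (δ * L) := by
  set s : ℝ := 2 * c / δ + 1 with hs
  have hs0 : 0 < 2 * c / δ := by positivity
  have hs1 : 1 ≤ s := by linarith
  have hlogs : 0 ≤ Real.log s := Real.log_nonneg hs1
  refine ⟨max 1 (2 * Real.log s / δ), le_max_left _ _, ?_⟩
  intro C L J hC hL hJ hCJ
  have hJ0 : (0 : ℝ) < J := by exact_mod_cast hJ
  have hC0 : 0 < C := lt_of_lt_of_le one_pos ((le_max_left _ _).trans hC)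
  have ht : 0 < c * L / J := by positivity
  rw [← Real.exp_log ht, ← Real.exp_nat_mul]
  apply Real.exp_le_exp.2
  have h1 : Real.log (c * L / J) ≤ c * L / J / s + Real.log s := by
    have h2 : Real.log (c * L / J) = Real.log (c * L / J / s) + Real.log s := by
      rw [Real.log_div ht.ne' (by linarith)]
      ring
    rw [h2]
    have h3 := Real.log_le_sub_one_of_pos (show 0 < c * L / J / s by positivity)
    linarith
  have h2 : (J : ℝ) * Real.log (c * L / J) ≤ J * (c * L / J / s + Real.log s) :=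
    mul_le_mul_of_nonneg_left h1 hJ0.le
  have h3 : (J : ℝ) * (c * L / J / s + Real.log s) = c * L / s + J * Real.log s := by
    field_simp
  have h4 : c * L / s ≤ δ / 2 * L := by
    rw [div_le_iff₀ (by linarith)]
    have h5 : δ / 2 * L * s = δ / 2 * L * (2 * c / δ) + δ / 2 * L := by
      rw [hs]
      ring
    have h6 : δ / 2 * L * (2 * c / δ) = c * L := by
      field_simp
    rw [h5, h6]
    have : 0 ≤ δ / 2 * L := by positivity
    linarith
  have h5 : (J : ℝ) * Real.log s ≤ δ / 2 * L := by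
    have h6 : 2 * Real.log s / δ ≤ C := (le_max_right _ _).trans hC
    have h7 : 2 * Real.log s ≤ C * δ := by
      rwa [div_le_iff₀ hδ] at h6
    have h8 : (J : ℝ) * (2 * Real.log s) ≤ J * (C * δ) := mul_le_mul_of_nonneg_left h7 hJ0.le
    have h9 : (J : ℝ) * (C * δ) ≤ L * δ := by
      have := mul_le_mul_of_nonneg_right hCJ hδ.le
      linarith
    linarith
  linarith

end Pool.Agent.Helper88.PP
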